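import Pool.Agent.H70.HZ.HBSYZ

/-!
# FREE: a free syzygy module gives maximal minors
-/

namespace Pool.Agent.H29.HZ.FREE

open Pool.Agent.H12.HS Matrix Pool.Agent.H70.HZ.KER Pool.Agent.H70.HZ.HBSYZ

universe u

section Hat
variable {P : Type u} [CommRing P] {g : P} {n : Type} [Fintype n]

theorem hat_add (T : Matrix n n P) (lam v w : n → P) :
    hat g T lam (v + w) = hat g T lam v + hat g T lam w := by
  apply QuadraticAlgebra.ext
  · simp [hat, mulVec_add]
  · simp [hat]

theorem hat_smul (T : Matrix n n P) (lam : n → P) (c : P) (v : n → P) :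
    hat g T lam (c • v) = algebraMap P (QuadraticAlgebra P g 0) c * hat g T lam v := by
  rw [← Algebra.smul_def]
  apply QuadraticAlgebra.ext
  · simp [hat, mulVec_smul]
  · simp [hat]

theorem hat_zero (T : Matrix n n P) (lam : n → P) :
    hat g T lam (0 : n → P) = 0 := by
  apply QuadraticAlgebra.ext
  · simp [hat]
  · simp [hat]

theorem hat_sum {ι : Type*} (s : Finset ι) (T : Matrix n n P) (lam : n → P) (v : ι → n → P) :
    hat g T lam (∑ j ∈ s, v j) = ∑ j ∈ s, hat g T lam (v j) := by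
  classical
  induction s using Finset.induction_on with
  | empty => simp [hat_zero]
  | insert a s ha ih => rw [Finset.sum_insert ha, Finset.sum_insert ha, hat_add, ih]

theorem hat_T [DecidableEq n] (T : Matrix n n P) (hT : T * T = g • (1 : Matrix n n P))
    (lam v : n → P) :
    hat g T lam (T *ᵥ v) = (⟨0, 1⟩ : QuadraticAlgebra P g 0) * hat g T lam v := by
  have hTT : T *ᵥ (T *ᵥ v) = g • v := by
    rw [Matrix.mulVec_mulVec, hT, Matrix.smul_mulVec, Matrix.one_mulVec]
  apply QuadraticAlgebra.ext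
  · simp [hat, hTT]
  · simp [hat]

/-- the action of an element of the quadratic algebra on column vectors -/
def ac (T : Matrix n n P) (a : QuadraticAlgebra P g 0) (v : n → P) : n → P :=
  a.re • v + a.im • (T *ᵥ v)

theorem hat_ac [DecidableEq n] (T : Matrix n n P) (hT : T * T = g • (1 : Matrix n n P))
    (lam : n → P) (a : QuadraticAlgebra P g 0) (v : n → P) :
    hat g T lam (ac T a v) = a * hat g T lam v := by
  rw [ac, hat_add, hat_smul, hat_smul, hat_T T hT, ← mul_assoc, ← add_mul]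
  congr 1
  apply QuadraticAlgebra.ext
  · simp
  · simp

end Hat

section Dl
variable {A : Type u} [CommRing A] {m : ℕ}

/-- the minors kill the columns -/
theorem sum_col_mul_dl (M : Matrix (Fin (m + 1)) (Fin m) A) (j : Fin m) :
    ∑ i, M i j * dl M i = 0 := by
  rw [← det_bord M (fun i => M i j)]
  refine Matrix.det_zero_of_column_eq (i := 0) (j := j.succ) (Fin.succ_ne_zero j).symm ?_
  intro k
  simp [bord]

end Dl

section
variable {Ω : Type u} [Field Ω] {m : ℕ} {n : Type} [Fintype n] [DecidableEq n]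

/-- a relation which pairs to zero with all embedded vectors -/
theorem act_eq_zero (T : Matrix n n (P2 Ω)) (hT : T * T = g4 Ω • (1 : Matrix n n (P2 Ω)))
    (lam : Fin (m + 1) → n → P2 Ω) (r : Fin (m + 1) → AA Ω)
    (h : ∀ v : n → P2 Ω, ∑ i, r i * hat (g4 Ω) T (lam i) v = 0) : act T lam r = 0 := by
  rw [← dotProduct_eq_zero_iff]
  intro v
  have h1 := h v
  rw [sum_mul_hat T hT] at h1
  exact congrArg QuadraticAlgebra.im h1

/-- `ax^a e = ay^b e'`-type coprimality: a common divisor of powers of `x` and `y` is a unit -/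
theorem isUnit_of_dvd (hRS : T_RS.{u}) (hdom : IsDomain (AA Ω)) {θ D D' : AA Ω} {a b : ℕ}
    (h1 : θ * D = ax Ω ^ a) (h2 : θ * D' = ay Ω ^ b) : ∃ E, θ * E = 1 := by
  have hθ : θ ≠ 0 := by
    rintro rfl
    rw [zero_mul] at h1
    exact ax_ne_zero a h1.symm
  have h3 : ax Ω ^ a * D' = ay Ω ^ b * D := by
    apply mul_left_cancel₀ hθ
    calc θ * (ax Ω ^ a * D') = ax Ω ^ a * (θ * D') := by ring
      _ = θ * (ay Ω ^ b * D) := by rw [h2, ← h1]; ring
  obtain ⟨c, -, hc⟩ := (hRS Ω a b).2 _ _ h3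
  refine ⟨c, ?_⟩
  apply mul_left_cancel₀ (ax_ne_zero (Ω := Ω) a)
  calc ax Ω ^ a * (θ * c) = θ * (ax Ω ^ a * c) := by ring
    _ = ax Ω ^ a * 1 := by rw [← hc, h1, mul_one]

/-- the columns `q e_i - f_i c` are embedded vectors -/
theorem exists_col (hSYZ : T_SYZ.{u}) [IsAlgClosed Ω] [CharZero Ω] (T : Matrix n n (P2 Ω))
    (lam : Fin (m + 1) → n → P2 Ω) (f : Fin (m + 1) → AA Ω) (hP : Pres T lam f)
    (q : AA Ω) (c : Fin (m + 1) → AA Ω) (hc : ∑ i, c i * f i = q) :
    ∃ W : Fin (m + 1) → n → P2 Ω, ∀ i l, (if l = i then q else 0) - f i * c l =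
      hat (g4 Ω) T (lam l) (W i) := by
  have h1 : ∀ i, ∃ w : n → P2 Ω, ∀ l, (if l = i then q else 0) - f i * c l =
      hat (g4 Ω) T (lam l) w := by
    intro i
    refine hSYZ Ω m n T lam f hP (fun l => (if l = i then q else 0) - f i * c l) ?_
    have h2 : ∀ l, f l * ((if l = i then q else 0) - f i * c l) =
        (if l = i then f l * q else 0) - f i * (c l * f l) := by
      intro l
      split_ifs <;> ring
    simp only [h2, Finset.sum_sub_distrib, Finset.sum_ite_eq', Finset.mem_univ, if_true,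
      ← Finset.mul_sum, hc]
    ring
  choose W hW using h1
  exact ⟨W, hW⟩

end

/-- FREE -/
theorem free (hKER : T_KER.{u}) (hSYZ : T_SYZ.{u}) (hRS : T_RS.{u}) (hDOM : T_DOM.{u}) :
    T_FREE.{u} := by
  intro Ω _ _ _ m n _ _ T lam f hP w hw
  have hdom : IsDomain (AA Ω) := (hDOM Ω).2
  set M : Matrix (Fin (m + 1)) (Fin m) (AA Ω) :=
    Matrix.of fun i j => hat (g4 Ω) T (lam i) (w j) with hM
  -- every vector through the generators
  have hgen : ∀ v : n → P2 Ω, ∃ a : Fin m → AA Ω, ∀ i,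
      hat (g4 Ω) T (lam i) v = ∑ j, a j * M i j := by
    intro v
    obtain ⟨α, β, hv⟩ := hw v
    refine ⟨fun j => ⟨α j, β j⟩, fun i => ?_⟩
    rw [hv, hat_sum]
    refine Finset.sum_congr rfl fun j _ => ?_
    exact hat_ac T hP.sq (lam i) (⟨α j, β j⟩ : AA Ω) (w j)
  -- the minors are a relation
  have hact : act T lam (dl M) = 0 := by
    refine act_eq_zero T hP.sq lam (dl M) fun v => ?_
    obtain ⟨a, ha⟩ := hgen v
    calc ∑ i, dl M i * hat (g4 Ω) T (lam i) v = ∑ i, ∑ j, a j * (M i j * dl M i) := by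
          refine Finset.sum_congr rfl fun i _ => ?_
          rw [ha i, Finset.mul_sum]
          refine Finset.sum_congr rfl fun j _ => ?_
          ring
      _ = ∑ j, a j * ∑ i, M i j * dl M i := by
          rw [Finset.sum_comm]
          refine Finset.sum_congr rfl fun j _ => ?_
          rw [Finset.mul_sum]
      _ = 0 := by simp [sum_col_mul_dl]
  obtain ⟨θ, hθ⟩ := hKER Ω m n T lam f hP _ hact
  obtain ⟨N, hx, hy⟩ := hP.cofI
  -- powers
  have key : ∀ q : AA Ω, q ≠ 0 → q ∈ Ideal.span (Set.range f) → ∃ D, θ * D = q ^ m := by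
    intro q hq0 hq
    obtain ⟨c, hc⟩ := (Ideal.mem_span_range_iff_exists_fun).1 hq
    obtain ⟨W, hW⟩ := exists_col hSYZ T lam f hP q c hc
    choose C hC using fun i => hgen (W i)
    set R : Matrix (Fin (m + 1)) (Fin (m + 1)) (AA Ω) :=
      Matrix.of fun j i => (Fin.cons (f i) (C i) : Fin (m + 1) → AA Ω) j with hR
    have h1 : bord M c * R = q • (1 : Matrix (Fin (m + 1)) (Fin (m + 1)) (AA Ω)) := by
      ext1 l i
      rw [Matrix.mul_apply, Fin.sum_univ_succ]
      simp only [bord, hR, Matrix.of_apply, Fin.cons_zero, Fin.cons_succ, Matrix.smul_apply,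
        Matrix.one_apply, smul_eq_mul]
      have h2 := hW i l
      rw [hC i l] at h2
      have h3 : ∑ j, M l j * C i j = ∑ j, C i j * M l j :=
        Finset.sum_congr rfl fun j _ => mul_comm _ _
      rw [h3, ← h2]
      split_ifs <;> ring
    have h2 := congrArg Matrix.det h1
    rw [Matrix.det_mul, Matrix.det_smul, Matrix.det_one, mul_one, Fintype.card_fin, det_bord]
      at h2
    have h3 : ∑ i, c i * dl M i = θ * q := by
      rw [← hc, Finset.mul_sum]
      refine Finset.sum_congr rfl fun i _ => ?_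
      rw [hθ i]
      ring
    rw [h3] at h2
    refine ⟨R.det, ?_⟩
    apply mul_left_cancel₀ hq0
    rw [pow_succ] at h2
    calc q * (θ * R.det) = θ * q * R.det := by ring
      _ = q * q ^ m := by rw [h2]; ring
  obtain ⟨D, hD⟩ := key _ (ax_ne_zero N) hx
  obtain ⟨D', hD'⟩ := key _ (ay_ne_zero N) hy
  rw [← pow_mul] at hD hD'
  obtain ⟨E, hE⟩ := isUnit_of_dvd hRS hdom hD hD'
  apply le_antisymm
  · rw [Ideal.span_le]
    rintro _ ⟨i, rfl⟩
    have : f i = E * dl M i := by
      rw [hθ i]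
      calc f i = (θ * E) * f i := by rw [hE, one_mul]
        _ = _ := by ring
    rw [SetLike.mem_coe, this]
    exact Ideal.mul_mem_left _ _ (Ideal.subset_span ⟨i, rfl⟩)
  · rw [Ideal.span_le]
    rintro _ ⟨i, rfl⟩
    rw [SetLike.mem_coe, hθ i]
    exact Ideal.mul_mem_left _ _ (Ideal.subset_span ⟨i, rfl⟩)

end Pool.Agent.H29.HZ.FREE
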