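import Pool.Agent.H12.HS.Targets

/-!
# HENS: roots of units in finite free algebras over `Ω[[t]]`
-/

namespace Pool.Agent.H29.HZ.HENS

open Pool.Agent.H12.HS

universe u

section Adic
variable {Ω W : Type u} [Field Ω] [CommRing W] [Algebra (PowerSeries Ω) W] {d : ℕ}

theorem mem_pow_iff (b : Module.Basis (Fin d) (PowerSeries Ω) W) (n : ℕ) (x : W) :
    x ∈ (Ideal.span {algebraMap (PowerSeries Ω) W PowerSeries.X}) ^ n • (⊤ : Ideal W) ↔
      ∀ j, (PowerSeries.X : PowerSeries Ω) ^ n ∣ b.repr x j := by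
  rw [Ideal.span_singleton_pow, smul_eq_mul, Ideal.mul_top, Ideal.mem_span_singleton]
  constructor
  · rintro ⟨y, rfl⟩ j
    rw [← map_pow, ← Algebra.smul_def, map_smul]
    exact ⟨b.repr y j, by simp⟩
  · intro h
    choose c hc using h
    refine ⟨∑ j, c j • b j, ?_⟩
    rw [← map_pow, ← Algebra.smul_def, Finset.smul_sum]
    conv_lhs => rw [← b.sum_repr x]
    refine Finset.sum_congr rfl fun j _ => ?_
    rw [hc j, mul_smul]

theorem isAdicComplete (b : Module.Basis (Fin d) (PowerSeries Ω) W) :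
    IsAdicComplete (Ideal.span {algebraMap (PowerSeries Ω) W PowerSeries.X}) W where
  haus' := by
    intro x hx
    rw [← b.repr.map_eq_zero_iff]
    ext j : 1
    ext m
    have h := hx (m + 1)
    rw [SModEq.zero, mem_pow_iff b] at h
    have h1 := PowerSeries.X_pow_dvd_iff.1 (h j) m (Nat.lt_succ_self m)
    simpa using h1
  prec' := by
    intro f hf
    refine ⟨∑ j, (PowerSeries.mk fun m => PowerSeries.coeff m (b.repr (f (m + 1)) j)) • b j, ?_⟩
    intro n
    rw [SModEq.sub_mem, mem_pow_iff b]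
    intro j
    rw [PowerSeries.X_pow_dvd_iff]
    intro m hm
    have h1 := hf (Nat.succ_le_of_lt hm)
    rw [SModEq.sub_mem, mem_pow_iff b] at h1
    have h2 := PowerSeries.X_pow_dvd_iff.1 (h1 j) m (Nat.lt_succ_self m)
    rw [map_sub, Finsupp.sub_apply, map_sub] at h2 ⊢
    rw [b.repr_sum_self, PowerSeries.coeff_mk]
    rw [sub_eq_zero] at h2 ⊢
    exact h2.symm

end Adic

/-- HENS -/
theorem hens : T_HENS.{u} := by
  intro Ω W _ _ _ d b N hN h r0 hr0 hmem
  have := isAdicComplete b
  set I : Ideal W := Ideal.span {algebraMap (PowerSeries Ω) W PowerSeries.X} with hI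
  have hN0 : N ≠ 0 := by
    rintro rfl
    simp at hN
  have hmonic : (Polynomial.X ^ N - Polynomial.C h : Polynomial W).Monic :=
    Polynomial.monic_X_pow_sub_C h hN0
  have hNu : IsUnit (N : W) := by
    have h1 : IsUnit (N : PowerSeries Ω) := by
      rw [PowerSeries.isUnit_iff_constantCoeff, map_natCast]
      exact isUnit_iff_ne_zero.2 hN
    have h2 := h1.map (algebraMap (PowerSeries Ω) W)
    rwa [map_natCast] at h2
  have hder : IsUnit (Ideal.Quotient.mk I
      ((Polynomial.X ^ N - Polynomial.C h : Polynomial W).derivative.eval r0)) := by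
    refine IsUnit.map _ ?_
    rw [Polynomial.derivative_sub, Polynomial.derivative_X_pow, Polynomial.derivative_C, sub_zero,
      Polynomial.eval_mul, Polynomial.eval_C, Polynomial.eval_pow, Polynomial.eval_X]
    exact hNu.mul (hr0.pow _)
  obtain ⟨r, hr, hr'⟩ := HenselianRing.is_henselian (I := I)
    (Polynomial.X ^ N - Polynomial.C h) hmonic r0 (by simpa using hmem) hder
  refine ⟨r, ?_, hr'⟩
  rw [Polynomial.IsRoot, Polynomial.eval_sub, Polynomial.eval_pow, Polynomial.eval_X,
    Polynomial.eval_C, sub_eq_zero] at hr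
  exact hr

end Pool.Agent.H29.HZ.HENS
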