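import Pool.Agent.H29.HZ.FREE

/-!
# R1: exactly one non-free block of size two is impossible
-/

namespace Pool.Agent.H29.HZ.R1

open Pool.Agent.H12.HS Matrix Pool.Agent.H70.HZ.KER Pool.Agent.H70.HZ.HBSYZ
open Pool.Agent.H29.HZ.FREE

universe u

/-- vanishing maximal minors give a relation between the columns -/
theorem exists_mulVec_zero {A : Type u} [CommRing A] [IsDomain A] {m : ℕ}
    (M : Matrix (Fin (m + 1)) (Fin m) A) (h : dl M = 0) : ∃ x : Fin m → A, x ≠ 0 ∧ M *ᵥ x = 0 := by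
  by_contra hno
  push Not at hno
  have h1 : ∀ i : Fin (m + 1), ∃ v : Fin (m + 1) → A, v 0 ≠ 0 ∧
      v 0 • (Pi.single i 1 : Fin (m + 1) → A) + M *ᵥ (fun j => v j.succ) = 0 := by
    intro i
    have h2 : (bord M (Pi.single i 1)).det = 0 := congrFun h i
    obtain ⟨v, hv, hv'⟩ := Matrix.exists_mulVec_eq_zero_iff.2 h2
    rw [bord_mulVec] at hv'
    refine ⟨v, ?_, hv'⟩
    intro h0
    rw [h0, zero_smul, zero_add] at hv'
    refine hno (fun j => v j.succ) ?_ hv'
    intro h3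
    apply hv
    ext1 j
    refine Fin.cases h0 (fun j => ?_) j
    exact congrFun h3 j
  choose v hv0 hv using h1
  have h2 : bord M 0 * (Matrix.of fun j i => v i j) = Matrix.diagonal fun i => -(v i 0) := by
    ext1 l i
    have h3 := congrFun (bord_mulVec M 0 (v i)) l
    have h4 := congrFun (hv i) l
    rw [Matrix.mul_apply]
    have h5 : ∑ j, bord M 0 l j * (Matrix.of fun j i => v i j) j i = (bord M 0 *ᵥ v i) l := rfl
    rw [h5, h3, Matrix.diagonal_apply]
    simp only [smul_zero, zero_add, Pi.add_apply, Pi.smul_apply, smul_eq_mul, Pi.zero_apply]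
      at h4 ⊢
    rw [Pi.single_apply] at h4
    by_cases hli : l = i
    · subst hli
      simp only [if_true, mul_one] at h4 ⊢
      linear_combination h4
    · simp only [hli, if_false, mul_zero, zero_add] at h4 ⊢
      exact h4
  have h3 : (bord M 0).det = 0 := by
    rw [det_bord]
    simp
  have h4 := congrArg Matrix.det h2
  rw [Matrix.det_mul, h3, zero_mul, Matrix.det_diagonal] at h4
  obtain ⟨i, -, hi⟩ := Finset.prod_eq_zero_iff.1 h4.symm
  exact hv0 i (neg_eq_zero.1 hi)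

section Pencil
variable {Ω : Type u} [Field Ω] {n : Type} [Fintype n] [DecidableEq n]

theorem indep (hns : ∀ p q : P2 Ω, p ^ 2 = g4 Ω * q ^ 2 → q = 0) (T : Matrix n n (P2 Ω))
    (hT : T * T = g4 Ω • (1 : Matrix n n (P2 Ω))) (κ : n → P2 Ω) (hκ : κ ≠ 0) (x : AA Ω)
    (h : ac T x κ = 0) : x = 0 := by
  have hTT : T *ᵥ (T *ᵥ κ) = g4 Ω • κ := by
    rw [Matrix.mulVec_mulVec, hT, Matrix.smul_mulVec, Matrix.one_mulVec]
  have h1 : T *ᵥ (ac T x κ) = 0 := by rw [h, mulVec_zero]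
  rw [ac, mulVec_add, mulVec_smul, mulVec_smul, hTT] at h1
  rw [ac] at h
  have h2 : (x.re ^ 2 - g4 Ω * x.im ^ 2) • κ = 0 := by
    have : (x.re ^ 2 - g4 Ω * x.im ^ 2) • κ =
        x.re • (x.re • κ + x.im • (T *ᵥ κ)) - x.im • (x.re • (T *ᵥ κ) + x.im • g4 Ω • κ) := by
      ext1 i
      simp only [Pi.smul_apply, Pi.sub_apply, Pi.add_apply, smul_eq_mul]
      ring
    rw [this, h, h1, smul_zero, smul_zero, sub_zero]
  obtain ⟨i, hi⟩ := Function.ne_iff.1 hκ
  have h3 : x.re ^ 2 - g4 Ω * x.im ^ 2 = 0 := by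
    have := congrFun h2 i
    simp only [Pi.smul_apply, smul_eq_mul, Pi.zero_apply] at this
    rcases mul_eq_zero.1 this with h | h
    · exact h
    · exact absurd h hi
  have him := hns _ _ (sub_eq_zero.1 h3)
  have hre : x.re = 0 := by
    rw [him] at h3
    simpa using h3
  exact QuadraticAlgebra.ext hre him

omit [DecidableEq n] in
theorem ac_neg_one (T : Matrix n n (P2 Ω)) (v : n → P2 Ω) : ac T (-1 : AA Ω) v = -v := by
  ext1 i
  simp [ac, QuadraticAlgebra.re_one, QuadraticAlgebra.im_one]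

theorem dep (T : Matrix (Fin 2) (Fin 2) (P2 Ω)) (κ κ' : Fin 2 → P2 Ω) :
    (κ 0 * (T *ᵥ κ) 1 - κ 1 * (T *ᵥ κ) 0) • κ' =
      ac T (⟨κ' 0 * (T *ᵥ κ) 1 - κ' 1 * (T *ᵥ κ) 0, κ 0 * κ' 1 - κ 1 * κ' 0⟩ : AA Ω) κ := by
  ext1 i
  fin_cases i
  · simp only [ac, Pi.smul_apply, Pi.add_apply, smul_eq_mul, Fin.zero_eta]
    ring
  · simp only [ac, Pi.smul_apply, Pi.add_apply, smul_eq_mul, Fin.mk_one]
    ring

theorem dep_ne (hns : ∀ p q : P2 Ω, p ^ 2 = g4 Ω * q ^ 2 → q = 0)
    (T : Matrix (Fin 2) (Fin 2) (P2 Ω)) (hT : T * T = g4 Ω • (1 : Matrix (Fin 2) (Fin 2) (P2 Ω)))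
    (κ : Fin 2 → P2 Ω) (hκ : κ ≠ 0) : κ 0 * (T *ᵥ κ) 1 - κ 1 * (T *ᵥ κ) 0 ≠ 0 := by
  intro h
  have h1 : ∀ i, κ i = 0 := by
    intro i
    have h2 : ac T (⟨(T *ᵥ κ) i, -κ i⟩ : AA Ω) κ = 0 := by
      ext1 l
      fin_cases i <;> fin_cases l
      · simp only [ac, Pi.smul_apply, Pi.add_apply, smul_eq_mul, Fin.zero_eta, Pi.zero_apply]
        ring
      · simp only [ac, Pi.smul_apply, Pi.add_apply, smul_eq_mul, Fin.mk_one, Fin.zero_eta,
          Pi.zero_apply]
        linear_combination -h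
      · simp only [ac, Pi.smul_apply, Pi.add_apply, smul_eq_mul, Fin.mk_one, Fin.zero_eta,
          Pi.zero_apply]
        linear_combination h
      · simp only [ac, Pi.smul_apply, Pi.add_apply, smul_eq_mul, Fin.mk_one, Pi.zero_apply]
        ring
    have h3 := congrArg QuadraticAlgebra.im (indep hns T hT κ hκ _ h2)
    simpa using h3
  exact hκ (funext h1)

end Pencil

section Blk
variable {Ω : Type u} [Field Ω] {ρ : ℕ} (T0 : Matrix (Fin 2) (Fin 2) (P2 Ω))

/-- vectors of the last block -/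
def emb (ρ : ℕ) (κ : Fin 2 → P2 Ω) : (Fin 2 × Fin ρ) ⊕ Fin 2 → P2 Ω := Sum.elim 0 κ

/-- the generators of the free blocks -/
noncomputable def ww (Ω : Type u) [Field Ω] {ρ : ℕ} (j : Fin ρ) : (Fin 2 × Fin ρ) ⊕ Fin 2 → P2 Ω :=
  Pi.single (Sum.inl (0, j)) 1

theorem blk_emb (κ : Fin 2 → P2 Ω) : blk ρ T0 *ᵥ (emb ρ κ) = emb ρ (T0 *ᵥ κ) := by
  rw [blk, emb, Matrix.fromBlocks_mulVec]
  simp [emb]

theorem ac_emb (a : AA Ω) (κ : Fin 2 → P2 Ω) :
    ac (blk ρ T0) a (emb ρ κ) = emb ρ (ac T0 a κ) := by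
  rw [ac, blk_emb, ac]
  ext1 p
  rcases p with p | p
  · simp only [emb, Pi.add_apply, Pi.smul_apply, Sum.elim_inl, Pi.zero_apply, smul_zero, add_zero]
  · simp only [emb, Pi.add_apply, Pi.smul_apply, Sum.elim_inr]

theorem emb_add (κ κ' : Fin 2 → P2 Ω) : emb ρ (κ + κ') = emb ρ κ + emb ρ κ' := by
  ext1 p
  rcases p with p | p <;> simp [emb]

theorem dec (a : Fin ρ → AA Ω) (κ : Fin 2 → P2 Ω) :
    ∑ j, ac (blk ρ T0) (a j) (ww Ω j) + emb ρ κ =
      Sum.elim (fun p => if p.1 = 0 then (a p.2).re else (a p.2).im) κ := by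
  ext1 p
  rcases p with ⟨i, j⟩ | i
  · rw [Pi.add_apply, Finset.sum_apply]
    have h1 : ∀ j', ac (blk ρ T0) (a j') (ww Ω j') (Sum.inl (i, j)) =
        if j = j' then (if i = 0 then (a j).re else (a j).im) else 0 := by
      intro j'
      simp only [ac, ww, Pi.add_apply, Pi.smul_apply, smul_eq_mul, Matrix.mulVec_single_one,
        Matrix.col_apply, blk, Matrix.fromBlocks_apply₁₁, Matrix.blockDiagonal_apply]
      by_cases hj : j = j'
      · subst hj
        fin_cases i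
        · simp [JJ]
        · simp [JJ]
      · have hne : (Sum.inl (i, j) : (Fin 2 × Fin ρ) ⊕ Fin 2) ≠ Sum.inl (0, j') := by
          intro h
          apply hj
          have := Sum.inl.inj h
          exact (Prod.mk.inj this).2
        rw [Pi.single_eq_of_ne hne]
        simp [hj]
    simp only [h1, Finset.sum_ite_eq, Finset.mem_univ, if_true, emb, Sum.elim_inl, Pi.zero_apply,
      add_zero]
  · rw [Pi.add_apply, Finset.sum_apply]
    have h1 : ∀ j', ac (blk ρ T0) (a j') (ww Ω j') (Sum.inr i) = 0 := by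
      intro j'
      simp [ac, ww, blk, Matrix.col_apply]
    simp [h1, emb]

theorem exists_dec (v : (Fin 2 × Fin ρ) ⊕ Fin 2 → P2 Ω) : ∃ (a : Fin ρ → AA Ω)
    (κ : Fin 2 → P2 Ω), v = ∑ j, ac (blk ρ T0) (a j) (ww Ω j) + emb ρ κ := by
  refine ⟨fun j => ⟨v (Sum.inl (0, j)), v (Sum.inl (1, j))⟩, fun i => v (Sum.inr i), ?_⟩
  rw [dec]
  ext1 p
  rcases p with ⟨i, j⟩ | i
  · fin_cases i <;> simp
  · simp

theorem blk_sq (h : blk ρ T0 * blk ρ T0 = g4 Ω • (1 : Matrix _ _ (P2 Ω))) :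
    T0 * T0 = g4 Ω • (1 : Matrix (Fin 2) (Fin 2) (P2 Ω)) := by
  rw [blk, Matrix.fromBlocks_multiply] at h
  ext1 i j
  have h1 := congrFun (congrFun h (Sum.inr i)) (Sum.inr j)
  simp only [Matrix.fromBlocks_apply₂₂, Matrix.zero_mul, zero_add, Matrix.smul_apply,
    Matrix.one_apply, Sum.inr.injEq] at h1
  rw [h1, Matrix.smul_apply, Matrix.one_apply]

/-- the embedding is faithful -/
theorem faithful {m : ℕ} {n : Type} [Fintype n] [DecidableEq n] {T : Matrix n n (P2 Ω)}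
    {lam : Fin (m + 1) → n → P2 Ω} {f : Fin (m + 1) → AA Ω} (hP : Pres T lam f) (V : n → P2 Ω)
    (h : ∀ i, hat (g4 Ω) T (lam i) V = 0) : V = 0 := by
  obtain ⟨N, hN⟩ := hP.cofM
  have h1 : ∀ ρ : n → P2 Ω, ρ ⬝ᵥ V = 0 := by
    intro ρ
    obtain ⟨r, hr⟩ := (hN ρ).1
    have h2 := sum_mul_hat T hP.sq lam r V
    rw [hr] at h2
    have h3 : ∑ i, r i * hat (g4 Ω) T (lam i) V = 0 :=
      Finset.sum_eq_zero fun i _ => by rw [h i, mul_zero]
    rw [h3] at h2
    have h4 := congrArg QuadraticAlgebra.im h2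
    simp only [QuadraticAlgebra.im_zero, smul_dotProduct, smul_eq_mul] at h4
    rcases mul_eq_zero.1 h4.symm with h5 | h5
    · exact absurd h5 (pow_ne_zero _ px_ne_zero)
    · exact h5
  ext1 i
  have := h1 (Pi.single i 1)
  simpa using this

end Blk

/-- R1 -/
theorem r1 (hKER : T_KER.{u}) (hSYZ : T_SYZ.{u}) (hRS : T_RS.{u}) (hDOM : T_DOM.{u}) :
    T_R1.{u} := by
  intro Ω _ _ _ m ρ T0 lam f hP h0
  have hdom : IsDomain (AA Ω) := (hDOM Ω).2
  have hns := (hDOM Ω).1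
  have hm : m = ρ + 1 := by
    have := hP.card
    simp at this
    omega
  subst hm
  have hT0 := blk_sq T0 hP.sq
  set T := blk ρ T0 with hTdef
  -- the matrices
  set io : (Fin 2 → P2 Ω) → Fin (ρ + 2) → AA Ω := fun κ i => hat (g4 Ω) T (lam i) (emb ρ κ)
    with hio
  set M : (Fin 2 → P2 Ω) → Matrix (Fin (ρ + 2)) (Fin (ρ + 1)) (AA Ω) := fun κ =>
    Matrix.of fun i => Fin.cons (io κ i) (fun j => hat (g4 Ω) T (lam i) (ww Ω j)) with hM
  have hM0 : ∀ κ i, M κ i 0 = io κ i := fun κ i => by simp [hM]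
  have hMs : ∀ κ i (j : Fin ρ), M κ i j.succ = hat (g4 Ω) T (lam i) (ww Ω j) :=
    fun κ i j => by simp [hM]
  have hF : ∀ κ c, (bord (M κ) c).det = Matrix.cramer (bord (M 0) c) (io κ) 1 := by
    intro κ c
    rw [Matrix.cramer_apply]
    refine congrArg Matrix.det ?_
    ext1 i j
    rw [Matrix.updateCol_apply]
    refine Fin.cases ?_ (fun j => ?_) j
    · rw [if_neg (by simp)]
      simp [bord]
    · refine Fin.cases ?_ (fun j => ?_) j
      · rw [if_pos (by simp)]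
        simp [bord, hM]
      · rw [if_neg (by simp [Fin.ext_iff])]
        simp [bord, hM]
  have hio_add : ∀ κ κ', io (κ + κ') = io κ + io κ' := by
    intro κ κ'
    ext1 i
    rw [hio]
    simp only [emb_add, hat_add, Pi.add_apply]
  have hio_ac : ∀ (a : AA Ω) κ, io (ac T0 a κ) = a • io κ := by
    intro a κ
    ext1 i
    rw [hio]
    simp only [← ac_emb, Pi.smul_apply, smul_eq_mul]
    exact hat_ac T hP.sq (lam i) a (emb ρ κ)
  have hdl : ∀ κ i, dl (M κ) i = Matrix.cramer (bord (M 0) (Pi.single i 1)) (io κ) 1 :=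
    fun κ i => hF κ (Pi.single i 1)
  -- pairing with the last block
  have hK : ∀ κ κ', ∑ i, io κ' i * dl (M κ) i = 0 := by
    intro κ κ'
    have hself : ∑ i, io κ i * dl (M κ) i = 0 := by
      have := sum_col_mul_dl (M κ) 0
      simpa only [hM0] using this
    by_cases hκ : κ = 0
    · subst hκ
      have : ∀ i, dl (M 0) i = 0 := by
        intro i
        rw [hdl]
        have : io 0 = 0 := by
          have := hio_add 0 0
          rw [add_zero] at this
          exact left_eq_add.1 this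
        rw [this, map_zero]
        rfl
      simp [this]
    · have hne := dep_ne hns T0 hT0 κ hκ
      have h1 := congrArg io (dep T0 κ κ')
      rw [hio_ac] at h1
      set h := κ 0 * (T0 *ᵥ κ) 1 - κ 1 * (T0 *ᵥ κ) 0 with hh
      have h2 : io (h • κ') = (algebraMap (P2 Ω) (AA Ω) h) • io κ' := by
        rw [← hio_ac]
        refine congrArg io ?_
        rw [ac]
        have e1 : (algebraMap (P2 Ω) (AA Ω) h).re = h := rfl
        have e2 : (algebraMap (P2 Ω) (AA Ω) h).im = 0 := rfl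
        rw [e1, e2, zero_smul, add_zero]
      rw [h2] at h1
      have h3 : algebraMap (P2 Ω) (AA Ω) h * ∑ i, io κ' i * dl (M κ) i = 0 := by
        rw [Finset.mul_sum]
        have h4 : ∀ i, algebraMap (P2 Ω) (AA Ω) h * (io κ' i * dl (M κ) i) =
            (⟨κ' 0 * (T0 *ᵥ κ) 1 - κ' 1 * (T0 *ᵥ κ) 0, κ 0 * κ' 1 - κ 1 * κ' 0⟩ : AA Ω) *
              (io κ i * dl (M κ) i) := by
          intro i
          have h5 := congrFun h1 i
          simp only [Pi.smul_apply, smul_eq_mul] at h5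
          rw [← mul_assoc, h5, mul_assoc]
        simp only [h4]
        rw [← Finset.mul_sum, hself, mul_zero]
      rcases mul_eq_zero.1 h3 with h4 | h4
      · exact absurd (congrArg QuadraticAlgebra.re h4) hne
      · exact h4
  -- the minors are relations
  have hact : ∀ κ, act T lam (dl (M κ)) = 0 := by
    intro κ
    refine act_eq_zero T hP.sq lam _ fun v => ?_
    obtain ⟨a, κ', hv⟩ := exists_dec T0 v
    have h1 : ∀ i, dl (M κ) i * hat (g4 Ω) T (lam i) v =
        (∑ j, a j * (M κ i j.succ * dl (M κ) i)) + io κ' i * dl (M κ) i := by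
      intro i
      have h2 : hat (g4 Ω) T (lam i) v = (∑ j, a j * M κ i j.succ) + io κ' i := by
        rw [hv, hat_add, hat_sum]
        refine congrArg₂ (· + ·) ?_ rfl
        refine Finset.sum_congr rfl fun j _ => ?_
        rw [hMs]
        exact hat_ac T hP.sq (lam i) (a j) (ww Ω j)
      rw [h2, mul_add, Finset.mul_sum]
      refine congrArg₂ (· + ·) ?_ ?_
      · refine Finset.sum_congr rfl fun j _ => ?_
        ring
      · ring
    simp only [h1]
    rw [Finset.sum_add_distrib, hK κ κ', add_zero, Finset.sum_comm]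
    refine Finset.sum_eq_zero fun j _ => ?_
    rw [← Finset.mul_sum, sum_col_mul_dl (M κ) j.succ, mul_zero]
  choose θ hθ using fun κ => hKER Ω (ρ + 1) _ T lam f hP _ (hact κ)
  obtain ⟨i0, hi0⟩ := exists_ne hP.cofI
  have hθadd : ∀ κ κ', θ (κ + κ') = θ κ + θ κ' := by
    intro κ κ'
    apply mul_right_cancel₀ hi0
    rw [← hθ, add_mul, ← hθ, ← hθ, hdl, hdl, hdl, hio_add, map_add]
    rfl
  have hθac : ∀ a κ, θ (ac T0 a κ) = a * θ κ := by
    intro a κ
    apply mul_right_cancel₀ hi0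
    rw [← hθ, mul_assoc, ← hθ, hdl, hdl, hio_ac, map_smul]
    rfl
  -- injectivity
  have hinj : ∀ κ, θ κ = 0 → κ = 0 := by
    intro κ hκ0
    by_contra hκ
    have h1 : dl (M κ) = 0 := by
      ext1 i
      rw [hθ, hκ0, zero_mul]
      rfl
    obtain ⟨x, hx, hx'⟩ := exists_mulVec_zero (M κ) h1
    have h2 : ∑ j : Fin ρ, ac T (x j.succ) (ww Ω j) + emb ρ (ac T0 (x 0) κ) = 0 := by
      apply faithful hP
      intro i
      have h3 := congrFun hx' i
      rw [Matrix.mulVec, dotProduct, Fin.sum_univ_succ] at h3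
      rw [← ac_emb, hat_add, hat_sum, hat_ac _ hP.sq]
      have h4 : ∑ j : Fin ρ, hat (g4 Ω) T (lam i) (ac T (x j.succ) (ww Ω j)) =
          ∑ j : Fin ρ, M κ i j.succ * x j.succ := by
        refine Finset.sum_congr rfl fun j _ => ?_
        rw [hMs, mul_comm]
        exact hat_ac T hP.sq (lam i) _ (ww Ω j)
      rw [h4]
      rw [hM0] at h3
      change _ + x 0 * io κ i = 0
      rw [mul_comm (x 0), add_comm]
      exact h3
    rw [dec] at h2
    apply hx
    ext1 j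
    refine Fin.cases ?_ (fun j => ?_) j
    · refine indep hns T0 hT0 κ hκ (x 0) ?_
      ext1 i
      have := congrFun h2 (Sum.inr i)
      simpa using this
    · have h3 := congrFun h2 (Sum.inl (0, j))
      have h4 := congrFun h2 (Sum.inl (1, j))
      simp only [Sum.elim_inl, if_true, Pi.zero_apply] at h3 h4
      rw [if_neg (by decide)] at h4
      exact QuadraticAlgebra.ext h3 h4
  -- the ideal of values
  set κ1 : Fin 2 → P2 Ω := ![1, 0] with hκ1
  have hκ1ne : κ1 ≠ 0 := by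
    intro h
    have := congrFun h 0
    simp [hκ1] at this
  set θ1 := θ κ1 with hθ1
  have hθ1ne : θ1 ≠ 0 := fun h => hκ1ne (hinj _ h)
  have hθzero : θ 0 = 0 := by
    have := hθadd 0 0
    rw [add_zero] at this
    exact left_eq_add.1 this
  let DD : Ideal (AA Ω) :=
    { carrier := {a | ∃ κ, θ κ = a}
      add_mem' := by
        rintro _ _ ⟨κ, rfl⟩ ⟨κ', rfl⟩
        exact ⟨κ + κ', hθadd κ κ'⟩
      zero_mem' := ⟨0, hθzero⟩
      smul_mem' := by
        rintro c _ ⟨κ, rfl⟩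
        exact ⟨ac T0 c κ, hθac c κ⟩ }
  have hDD : ∀ a, a ∈ DD ↔ ∃ κ, θ κ = a := fun a => Iff.rfl
  have hswap : ∀ κ, ac T0 θ1 κ = ac T0 (θ κ) κ1 := by
    intro κ
    rw [← sub_eq_zero]
    apply hinj
    have h1 : ac T0 θ1 κ - ac T0 (θ κ) κ1 =
        ac T0 θ1 κ + ac T0 (-1 : AA Ω) (ac T0 (θ κ) κ1) := by
      rw [ac_neg_one, sub_eq_add_neg]
    rw [h1, hθadd, hθac, hθac, hθac]
    ring
  have key : ∀ q : AA Ω, q ≠ 0 → q ∈ Ideal.span (Set.range f) → q ^ (ρ + 1) ∈ DD := by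
    intro q hq0 hq
    obtain ⟨c, hc⟩ := (Ideal.mem_span_range_iff_exists_fun).1 hq
    obtain ⟨W, hW⟩ := exists_col hSYZ T lam f hP q c hc
    choose C κκ hC using fun i => exists_dec T0 (W i)
    set R : Matrix (Fin (ρ + 2)) (Fin (ρ + 2)) (AA Ω) :=
      Matrix.of fun j i => (Fin.cons (f i) (Fin.cons (θ (κκ i)) (C i)) : Fin (ρ + 2) → AA Ω) j
      with hR
    set s : Fin (ρ + 2) → AA Ω := Fin.cons θ1 (Fin.cons 1 (fun _ => θ1)) with hs
    have h1 : bord (M κ1) c * (Matrix.diagonal s * R) =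
        (θ1 * q) • (1 : Matrix (Fin (ρ + 2)) (Fin (ρ + 2)) (AA Ω)) := by
      ext1 l i
      rw [Matrix.mul_apply]
      simp only [Matrix.diagonal_mul]
      rw [Fin.sum_univ_succ, Fin.sum_univ_succ]
      simp only [bord, hR, hs, Matrix.of_apply, Fin.cons_zero, Fin.cons_succ, Matrix.smul_apply,
        Matrix.one_apply, smul_eq_mul, one_mul, hM0, hMs]
      have h2 : θ1 * ((if l = i then q else 0) - f i * c l) =
          (∑ j, hat (g4 Ω) T (lam l) (ww Ω j) * (θ1 * C i j)) + io κ1 l * θ (κκ i) := by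
        rw [hW i l, hC i, hat_add, hat_sum, mul_add, Finset.mul_sum]
        refine congrArg₂ (· + ·) ?_ ?_
        · refine Finset.sum_congr rfl fun j _ => ?_
          have e := hat_ac T hP.sq (lam l) (C i j) (ww Ω j)
          rw [e]
          ring
        · have e1 : θ1 * hat (g4 Ω) T (lam l) (emb ρ (κκ i)) = io (ac T0 θ1 (κκ i)) l := by
            rw [hio_ac]
            rfl
          rw [e1, hswap, hio_ac]
          simp only [Pi.smul_apply, smul_eq_mul]
          ring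
      have h3 : (θ1 * q) * (if l = i then (1 : AA Ω) else 0) =
          θ1 * ((if l = i then q else 0) - f i * c l) + θ1 * f i * c l := by
        split_ifs <;> ring
      rw [h3, h2]
      ring
    have h2 := congrArg Matrix.det h1
    rw [Matrix.det_mul, Matrix.det_mul, Matrix.det_smul, Matrix.det_one, mul_one,
      Fintype.card_fin, det_bord, Matrix.det_diagonal] at h2
    have h3 : ∑ i, c i * dl (M κ1) i = θ1 * q := by
      rw [← hc, Finset.mul_sum]
      refine Finset.sum_congr rfl fun i _ => ?_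
      rw [hθ κ1 i]
      ring
    have h4 : ∏ i, s i = θ1 ^ (ρ + 1) := by
      rw [Fin.prod_univ_succ, Fin.prod_univ_succ]
      simp only [hs, Fin.cons_zero, Fin.cons_succ, one_mul, Finset.prod_const, Finset.card_univ,
        Fintype.card_fin]
      ring
    rw [h3, h4] at h2
    have h5 : R.det = q ^ (ρ + 1) := by
      apply mul_left_cancel₀ (mul_ne_zero (mul_ne_zero hθ1ne hq0) (pow_ne_zero (ρ + 1) hθ1ne))
      calc θ1 * q * θ1 ^ (ρ + 1) * R.det = θ1 * q * (θ1 ^ (ρ + 1) * R.det) := by ring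
        _ = (θ1 * q) ^ (ρ + 2) := h2
        _ = _ := by ring
    rw [← h5, Matrix.det_eq_sum_mul_adjugate_row R 1]
    refine Ideal.sum_mem _ fun i _ => ?_
    have h6 : R 1 i = θ (κκ i) := by
      have : (1 : Fin (ρ + 2)) = Fin.succ 0 := rfl
      rw [this]
      simp only [hR, Matrix.of_apply, Fin.cons_succ, Fin.cons_zero]
    rw [h6, mul_comm]
    exact Ideal.mul_mem_left _ _ ⟨κκ i, rfl⟩
  obtain ⟨N, hx, hy⟩ := hP.cofI
  obtain ⟨κx, hκx⟩ := (hDD _).1 (key _ (ax_ne_zero N) hx)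
  obtain ⟨κy, hκy⟩ := (hDD _).1 (key _ (ay_ne_zero N) hy)
  -- coordinates
  set p := θ κ1 with hp
  set r := θ ![0, 1] with hr
  have hcoord : ∀ κ : Fin 2 → P2 Ω, θ κ = algebraMap (P2 Ω) (AA Ω) (κ 0) * p +
      algebraMap (P2 Ω) (AA Ω) (κ 1) * r := by
    intro κ
    rw [hp, hr, ← hθac, ← hθac, ← hθadd]
    refine congrArg θ ?_
    ext1 i
    have e1 : ∀ t : P2 Ω, (algebraMap (P2 Ω) (AA Ω) t).re = t := fun _ => rfl
    have e2 : ∀ t : P2 Ω, (algebraMap (P2 Ω) (AA Ω) t).im = 0 := fun _ => rfl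
    fin_cases i <;> simp [ac, e1, e2, hκ1]
  set δ := p.re * r.im - r.re * p.im with hδ
  have hnorm : ∀ κ : Fin 2 → P2 Ω, δ * (κ 0 * (T0 *ᵥ κ) 1 - κ 1 * (T0 *ᵥ κ) 0) =
      (θ κ).re ^ 2 - g4 Ω * (θ κ).im ^ 2 := by
    intro κ
    have h1 : θ (T0 *ᵥ κ) = (⟨0, 1⟩ : AA Ω) * θ κ := by
      rw [← hθac]
      refine congrArg θ ?_
      simp [ac]
    have h2 := hcoord κ
    have h3 := hcoord (T0 *ᵥ κ)
    have e1 : ∀ t : P2 Ω, (algebraMap (P2 Ω) (AA Ω) t).re = t := fun _ => rfl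
    have e2 : ∀ t : P2 Ω, (algebraMap (P2 Ω) (AA Ω) t).im = 0 := fun _ => rfl
    have a1 := congrArg QuadraticAlgebra.re h1
    have a2 := congrArg QuadraticAlgebra.im h1
    have b1 := congrArg QuadraticAlgebra.re h2
    have b2 := congrArg QuadraticAlgebra.im h2
    have c1 := congrArg QuadraticAlgebra.re h3
    have c2 := congrArg QuadraticAlgebra.im h3
    simp only [QuadraticAlgebra.re_mul, QuadraticAlgebra.im_mul, QuadraticAlgebra.re_add,
      QuadraticAlgebra.im_add, e1, e2, zero_mul, mul_zero, add_zero, zero_add, mul_one, one_mul]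
      at a1 a2 b1 b2 c1 c2
    have d1 : g4 Ω * (θ κ).im = (T0 *ᵥ κ) 0 * p.re + (T0 *ᵥ κ) 1 * r.re := by
      rw [← c1, a1]
    have d2 : (θ κ).re = (T0 *ᵥ κ) 0 * p.im + (T0 *ᵥ κ) 1 * r.im := by
      rw [← c2, a2]
    have d3 : (θ κ).re ^ 2 - g4 Ω * (θ κ).im ^ 2 =
        (θ κ).re * (θ κ).re - (g4 Ω * (θ κ).im) * (θ κ).im := by ring
    rw [d3, d1]
    nth_rewrite 2 [d2]
    rw [b1, b2, hδ]
    ring
  have hx2 : δ * (κx 0 * (T0 *ᵥ κx) 1 - κx 1 * (T0 *ᵥ κx) 0) = px Ω ^ (2 * (N * (ρ + 1))) := by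
    rw [hnorm, hκx, ← pow_mul, ax_pow]
    ring
  have hy2 : δ * (κy 0 * (T0 *ᵥ κy) 1 - κy 1 * (T0 *ᵥ κy) 0) = py Ω ^ (2 * (N * (ρ + 1))) := by
    rw [hnorm, hκy, ← pow_mul, ay_pow]
    ring
  have hδ0 : δ ≠ 0 := by
    intro h
    rw [h, zero_mul] at hx2
    exact pow_ne_zero _ px_ne_zero hx2.symm
  obtain ⟨c, hc⟩ : ∃ c, δ * c = 1 := by
    set a := 2 * (N * (ρ + 1)) with ha
    have h1 : px Ω ^ a * (κy 0 * (T0 *ᵥ κy) 1 - κy 1 * (T0 *ᵥ κy) 0) =
        py Ω ^ a * (κx 0 * (T0 *ᵥ κx) 1 - κx 1 * (T0 *ᵥ κx) 0) := by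
      rw [← hx2, ← hy2]
      ring
    obtain ⟨c, -, hc⟩ := (hRS Ω a a).1 _ _ h1
    refine ⟨c, ?_⟩
    apply mul_left_cancel₀ (pow_ne_zero a (px_ne_zero (Ω := Ω)))
    calc px Ω ^ a * (δ * c) = δ * (px Ω ^ a * c) := by ring
      _ = px Ω ^ a * 1 := by rw [← hc, hx2, mul_one]
  have hfin := hnorm ![c * r.im, -(c * p.im)]
  have hone : θ ![c * r.im, -(c * p.im)] = 1 := by
    rw [hcoord]
    have e1 : ∀ t : P2 Ω, (algebraMap (P2 Ω) (AA Ω) t).re = t := fun _ => rfl
    have e2 : ∀ t : P2 Ω, (algebraMap (P2 Ω) (AA Ω) t).im = 0 := fun _ => rfl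
    apply QuadraticAlgebra.ext
    · simp only [QuadraticAlgebra.re_mul, QuadraticAlgebra.re_add, e1, e2, zero_mul,
        mul_zero, add_zero, QuadraticAlgebra.re_one, Matrix.cons_val_zero, Matrix.cons_val_one]
      linear_combination hc
    · simp only [QuadraticAlgebra.im_mul, QuadraticAlgebra.im_add, e1, e2, zero_mul,
        add_zero, QuadraticAlgebra.im_one, Matrix.cons_val_zero, Matrix.cons_val_one]
      ring
  rw [hone] at hfin
  have hev := congrArg ev0 hfin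
  have hT00 : ∀ (κ : Fin 2 → P2 Ω) i, ev0 ((T0 *ᵥ κ) i) = 0 := by
    intro κ i
    rw [Matrix.mulVec, dotProduct, map_sum]
    refine Finset.sum_eq_zero fun j _ => ?_
    have h1 := congrFun (congrFun h0 i) j
    simp only [Matrix.map_apply, Matrix.zero_apply] at h1
    rw [map_mul, h1, zero_mul]
  simp only [map_mul, map_sub, hT00, mul_zero, sub_self, QuadraticAlgebra.re_one,
    QuadraticAlgebra.im_one, map_pow, map_one, one_pow, ev0_g4, zero_mul, sub_zero] at hev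
  exact one_ne_zero hev.symm

end Pool.Agent.H29.HZ.R1
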