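import Pool.Agent.H12.HS.Targets
import Pool.Agent.H12.HS.Basic

/-!
# STRIP: splitting off a free summand
-/

namespace Pool.Agent.H29.HZ.STRIP

open Pool.Agent.H12.HS Matrix

universe u

section
variable {P : Type u} [CommRing P] {n : Type} [Fintype n] [DecidableEq n]

/-- general splitting -/
theorem split [IsLocalRing P] {g : P} {r : ℕ} (hcard : Fintype.card n = 2 * (r + 1))
    (T0 : Matrix n n P) (hT : T0 * T0 = g • (1 : Matrix n n P)) (v χ : n → P)
    (h1 : χ ⬝ᵥ v = 0) (h2 : χ ⬝ᵥ (T0 *ᵥ v) = 1) :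
    ∃ (T1 : Matrix (Fin (2 * r)) (Fin (2 * r)) P)
    (S : Matrix n (Fin 2 ⊕ Fin (2 * r)) P) (S' : Matrix (Fin 2 ⊕ Fin (2 * r)) n P),
    S * S' = 1 ∧ S' * S = 1 ∧ S' * T0 * S = Matrix.fromBlocks (JJ g) 0 0 T1 := by
  have hTT : ∀ w : n → P, T0 *ᵥ (T0 *ᵥ w) = g • w := by
    intro w
    rw [Matrix.mulVec_mulVec, hT, Matrix.smul_mulVec, Matrix.one_mulVec]
  let K0 : Submodule P (n → P) :=
    { carrier := {w | χ ⬝ᵥ w = 0 ∧ χ ⬝ᵥ (T0 *ᵥ w) = 0}
      add_mem' := by
        rintro a b ⟨ha, ha'⟩ ⟨hb, hb'⟩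
        refine ⟨?_, ?_⟩
        · rw [dotProduct_add, ha, hb, add_zero]
        · rw [mulVec_add, dotProduct_add, ha', hb', add_zero]
      zero_mem' := by simp
      smul_mem' := by
        rintro c a ⟨ha, ha'⟩
        refine ⟨?_, ?_⟩
        · rw [dotProduct_smul, ha, smul_zero]
        · rw [mulVec_smul, dotProduct_smul, ha', smul_zero] }
  have hK0 : ∀ w, w ∈ K0 ↔ χ ⬝ᵥ w = 0 ∧ χ ⬝ᵥ (T0 *ᵥ w) = 0 := fun w => Iff.rfl
  have hpr : ∀ w : n → P, w - (χ ⬝ᵥ (T0 *ᵥ w)) • v - (χ ⬝ᵥ w) • (T0 *ᵥ v) ∈ K0 := by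
    intro w
    rw [hK0]
    refine ⟨?_, ?_⟩
    · simp only [dotProduct_sub, dotProduct_smul, h1, h2, smul_eq_mul]
      ring
    · simp only [mulVec_sub, mulVec_smul, hTT, dotProduct_sub, dotProduct_smul, h1, h2,
        smul_eq_mul]
      ring
  let π : (n → P) →ₗ[P] K0 :=
    { toFun := fun w => ⟨_, hpr w⟩
      map_add' := by
        intro a b
        apply Subtype.ext
        simp only [mulVec_add, dotProduct_add, add_smul, Submodule.coe_add]
        abel
      map_smul' := by
        intro c a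
        apply Subtype.ext
        simp only [mulVec_smul, dotProduct_smul, smul_eq_mul, RingHom.id_apply,
          Submodule.coe_smul, smul_sub, smul_smul] }
  have hπ : ∀ w : n → P, ((π w : K0) : n → P) =
      w - (χ ⬝ᵥ (T0 *ᵥ w)) • v - (χ ⬝ᵥ w) • (T0 *ᵥ v) := fun w => rfl
  have hπK : ∀ k : K0, π (k : n → P) = k := by
    intro k
    apply Subtype.ext
    rw [hπ, ((hK0 _).1 k.2).1, ((hK0 _).1 k.2).2]
    simp
  have hproj : Module.Projective P K0 :=
    Module.Projective.of_split K0.subtype π (by ext1 k; exact hπK k)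
  have hfin : Module.Finite P K0 := Module.Finite.of_surjective π fun k => ⟨k, hπK k⟩
  have hfree : Module.Free P K0 := Module.free_of_flat_of_isLocalRing
  -- the decomposition
  let e : ((Fin 2 → P) × K0) ≃ₗ[P] (n → P) :=
    { toFun := fun x => x.1 0 • v + x.1 1 • (T0 *ᵥ v) + (x.2 : n → P)
      map_add' := by
        intro x y
        simp only [Prod.fst_add, Prod.snd_add, Pi.add_apply, add_smul, Submodule.coe_add]
        abel
      map_smul' := by
        intro c x
        simp only [Prod.smul_fst, Prod.smul_snd, Pi.smul_apply, smul_eq_mul, RingHom.id_apply,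
          Submodule.coe_smul, smul_add, smul_smul]
      invFun := fun w => (![χ ⬝ᵥ (T0 *ᵥ w), χ ⬝ᵥ w], π w)
      left_inv := by
        rintro ⟨a, k⟩
        have hk1 := ((hK0 _).1 k.2).1
        have hk2 := ((hK0 _).1 k.2).2
        have e1 : χ ⬝ᵥ (a 0 • v + a 1 • (T0 *ᵥ v) + (k : n → P)) = a 1 := by
          simp only [dotProduct_add, dotProduct_smul, h1, h2, hk1, smul_eq_mul]
          ring
        have e2 : χ ⬝ᵥ (T0 *ᵥ (a 0 • v + a 1 • (T0 *ᵥ v) + (k : n → P))) = a 0 := by
          simp only [mulVec_add, mulVec_smul, hTT, dotProduct_add, dotProduct_smul, h1, h2, hk2,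
            smul_eq_mul]
          ring
        refine Prod.ext ?_ ?_
        · dsimp only
          rw [e1, e2]
          ext i
          fin_cases i <;> rfl
        · apply Subtype.ext
          dsimp only
          rw [hπ, e1, e2]
          abel
      right_inv := by
        intro w
        dsimp only
        rw [hπ]
        simp only [Matrix.cons_val_zero, Matrix.cons_val_one]
        abel }
  have he : ∀ x, e x = x.1 0 • v + x.1 1 • (T0 *ᵥ v) + (x.2 : n → P) := fun x => rfl
  have hrank : Module.finrank P K0 = 2 * r := by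
    have h3 := e.finrank_eq
    rw [Module.finrank_prod, Module.finrank_fin_fun, Module.finrank_pi, hcard] at h3
    omega
  let b : Module.Basis (Fin (2 * r)) P K0 := Module.finBasisOfFinrankEq P K0 hrank
  let B : Module.Basis (Fin 2 ⊕ Fin (2 * r)) P (n → P) :=
    ((Pi.basisFun P (Fin 2)).prod b).map e
  have hB0 : B (Sum.inl 0) = v := by
    simp [B, he]
  have hB1 : B (Sum.inl 1) = T0 *ᵥ v := by
    simp [B, he]
  have hBr : ∀ j, B (Sum.inr j) = (b j : n → P) := by
    intro j
    simp [B, he]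
  let E := Pi.basisFun P n
  have hS : ∀ i q, E.toMatrix B i q = B q i := by
    intro i q
    rw [Module.Basis.toMatrix_apply]
    simp [E]
  have hSS' : E.toMatrix B * B.toMatrix E = 1 := Module.Basis.toMatrix_mul_toMatrix_flip _ _
  have hS'S : B.toMatrix E * E.toMatrix B = 1 := Module.Basis.toMatrix_mul_toMatrix_flip _ _
  have hstab : ∀ k : K0, T0 *ᵥ (k : n → P) ∈ K0 := by
    intro k
    rw [hK0]
    refine ⟨((hK0 _).1 k.2).2, ?_⟩
    rw [hTT, dotProduct_smul, ((hK0 _).1 k.2).1, smul_zero]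
  let T1 : Matrix (Fin (2 * r)) (Fin (2 * r)) P :=
    Matrix.of fun i j => b.repr ⟨T0 *ᵥ (b j : n → P), hstab (b j)⟩ i
  refine ⟨T1, E.toMatrix B, B.toMatrix E, hSS', hS'S, ?_⟩
  have key : T0 * E.toMatrix B = E.toMatrix B * Matrix.fromBlocks (JJ g) 0 0 T1 := by
    ext1 i q
    have hL : (T0 * E.toMatrix B) i q = (T0 *ᵥ B q) i := by
      rw [Matrix.mul_apply, Matrix.mulVec, dotProduct]
      exact Finset.sum_congr rfl fun j _ => by rw [hS]
    rw [hL, Matrix.mul_apply, Fintype.sum_sum_type]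
    simp only [hS, Fin.sum_univ_two, hB0, hB1, hBr]
    rcases q with q | q
    · simp only [Matrix.fromBlocks_apply₁₁, Matrix.fromBlocks_apply₂₁, Matrix.zero_apply,
        mul_zero, Finset.sum_const_zero, add_zero]
      fin_cases q
      · simp [JJ, hB0]
      · simp only [Fin.mk_one, hB1, hTT]
        simp [JJ, mul_comm]
    · simp only [Matrix.fromBlocks_apply₁₂, Matrix.fromBlocks_apply₂₂, Matrix.zero_apply,
        mul_zero, zero_add, hBr]
      have h3 := congrArg (fun k : K0 => (k : n → P))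
        (b.sum_repr ⟨T0 *ᵥ (b q : n → P), hstab (b q)⟩)
      simp only [Submodule.coe_sum, Submodule.coe_smul] at h3
      rw [← h3, Finset.sum_apply]
      refine Finset.sum_congr rfl fun j _ => ?_
      simp only [T1, Matrix.of_apply, Pi.smul_apply, smul_eq_mul]
      ring
  rw [Matrix.mul_assoc, key, ← Matrix.mul_assoc, hS'S, Matrix.one_mul]

end

/-- STRIP -/
theorem strip : T_STRIP.{u} := by
  intro Ω _ r T0 hT h0
  have hbar : ∀ i j, ∑ l, ev0 (T0 i l) * ev0 (T0 l j) = 0 := by
    intro i j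
    have h1 := congrArg ev0 (congrFun (congrFun hT i) j)
    rw [Matrix.mul_apply, map_sum] at h1
    simp only [map_mul, Matrix.smul_apply, smul_eq_mul, ev0_g4, zero_mul] at h1
    exact h1
  obtain ⟨j, i, hij, hu⟩ : ∃ j i, i ≠ j ∧ ev0 (T0 i j) ≠ 0 := by
    by_contra hno
    push Not at hno
    apply h0
    ext i j
    rw [Matrix.map_apply, Matrix.zero_apply]
    by_cases hij : i = j
    · subst hij
      have h1 := hbar i i
      rw [Finset.sum_eq_single i] at h1
      · exact mul_self_eq_zero.1 h1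
      · intro l _ hl
        rw [hno i l hl, mul_zero]
      · intro h; exact absurd (Finset.mem_univ _) h
    · exact hno j i hij
  have hunit := (isUnit_P2 (T0 i j)).2 hu
  obtain ⟨w, hw⟩ := hunit
  refine split (by simp) T0 hT (Pi.single j 1) (Pi.single i (↑w⁻¹ : P2 Ω)) ?_ ?_
  · simp [hij]
  · simp [← hw]

end Pool.Agent.H29.HZ.STRIP
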