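import Pool.Agent.H12.HS.Targets
import Pool.Agent.H12.HS.Basic

/-!
# SUM: smoothability of products
-/

namespace Pool.Agent.H29.HZ.SUM

open Pool.Agent.H12.HS Matrix
open scoped Kronecker

universe u

section Block
variable {d1 d2 : ℕ}

/-- block sum of configurations -/
def bs {R : Type u} [Zero R] (c1 : Cfg d1 R) (c2 : Cfg d2 R) : Cfg (d1 + d2) R :=
  ⟨fun a => (Matrix.fromBlocks (c1.M a) 0 0 (c2.M a)).submatrix
      finSumFinEquiv.symm finSumFinEquiv.symm,
    Sum.elim c1.v c2.v ∘ finSumFinEquiv.symm⟩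

theorem bs_map {R R' : Type u} [CommRing R] [CommRing R'] (φ : R →+* R') (c1 : Cfg d1 R)
    (c2 : Cfg d2 R) : (bs c1 c2).map φ = bs (c1.map φ) (c2.map φ) := by
  apply Cfg.ext
  · funext a
    ext i j
    simp only [bs, Cfg.map, Matrix.map_apply, Matrix.submatrix_apply]
    rcases finSumFinEquiv.symm i with i | i <;> rcases finSumFinEquiv.symm j with j | j <;> simp
  · funext i
    simp only [bs, Cfg.map, Function.comp_apply]
    rcases finSumFinEquiv.symm i with i | i <;> simp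

theorem bs_isRed {k : Type u} [Field k] {e1 : Cfg d1 k} {e2 : Cfg d2 k}
    (q1 : Fin d1 → Fin 3 → k) (U1 V1 : Matrix (Fin d1) (Fin d1) k)
    (q2 : Fin d2 → Fin 3 → k) (U2 V2 : Matrix (Fin d2) (Fin d2) k)
    (h1 : Function.Injective q1) (h2 : Function.Injective q2)
    (s1 : ∀ i, q1 i 2 ^ 2 = q1 i 0 ^ 4 + q1 i 1 ^ 4)
    (s2 : ∀ i, q2 i 2 ^ 2 = q2 i 0 ^ 4 + q2 i 1 ^ 4)
    (u1 : U1 * V1 = 1) (u2 : U2 * V2 = 1)
    (m1 : ∀ a, e1.M a = U1 * Matrix.diagonal (fun i => q1 i a) * V1)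
    (m2 : ∀ a, e2.M a = U2 * Matrix.diagonal (fun i => q2 i a) * V2)
    (v1 : e1.v = U1 *ᵥ 1) (v2 : e2.v = U2 *ᵥ 1) (hdis : ∀ i j, q1 i ≠ q2 j) :
    IsRed (bs e1 e2) := by
  refine ⟨Sum.elim q1 q2 ∘ finSumFinEquiv.symm,
    (Matrix.fromBlocks U1 0 0 U2).submatrix finSumFinEquiv.symm finSumFinEquiv.symm,
    (Matrix.fromBlocks V1 0 0 V2).submatrix finSumFinEquiv.symm finSumFinEquiv.symm,
    ?_, ?_, ?_, ?_, ?_⟩
  · exact (Function.Injective.sumElim h1 h2 hdis).comp finSumFinEquiv.symm.injective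
  · intro i
    simp only [Function.comp_apply]
    rcases finSumFinEquiv.symm i with i | i
    · exact s1 i
    · exact s2 i
  · rw [Matrix.submatrix_mul_equiv, Matrix.fromBlocks_multiply]
    simp [u1, u2]
  · intro a
    have hD : (Matrix.diagonal fun i => (Sum.elim q1 q2 ∘ finSumFinEquiv.symm) i a) =
        (Matrix.fromBlocks (Matrix.diagonal fun i => q1 i a) 0 0
          (Matrix.diagonal fun i => q2 i a)).submatrix finSumFinEquiv.symm
            finSumFinEquiv.symm := by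
      rw [Matrix.fromBlocks_diagonal, Matrix.submatrix_diagonal_equiv]
      congr 1
      funext i
      simp only [Function.comp_apply]
      rcases finSumFinEquiv.symm i with i | i <;> simp
    rw [hD, Matrix.submatrix_mul_equiv, Matrix.submatrix_mul_equiv, Matrix.fromBlocks_multiply,
      Matrix.fromBlocks_multiply]
    simp only [Matrix.mul_zero, Matrix.zero_mul, add_zero, zero_add, bs, m1, m2]
  · rw [Matrix.submatrix_mulVec_equiv]
    funext i
    simp only [bs, Function.comp_apply, v1, v2]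
    have : (1 : Fin (d1 + d2) → k) ∘ (finSumFinEquiv (m := d1) (n := d2)).symm.symm =
        Sum.elim (1 : Fin d1 → k) (1 : Fin d2 → k) := by
      funext i
      rcases i with i | i <;> rfl
    rw [this, Matrix.fromBlocks_mulVec]
    simp only [Matrix.zero_mulVec, add_zero, zero_add]
    rfl

end Block

section Res
variable {Ω : Type u} [Field Ω] (E : FreeAlgebra Ω (Fin 3))

/-- the value of the noncommutative polynomial `E` at a configuration -/
noncomputable def EE {R : Type u} [CommRing R] [Algebra Ω R] {d : ℕ} (c : Cfg d R) :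
    Matrix (Fin d) (Fin d) R :=
  FreeAlgebra.lift Ω c.M E

theorem EE_map {R R' : Type u} [CommRing R] [Algebra Ω R] [CommRing R'] [Algebra Ω R'] {d : ℕ}
    (φ : R →ₐ[Ω] R') (c : Cfg d R) : EE E (c.map φ) = (EE E c).map φ := by
  have h : (φ.mapMatrix).comp (FreeAlgebra.lift Ω c.M) = FreeAlgebra.lift Ω (c.map φ).M := by
    apply FreeAlgebra.hom_ext
    funext a
    simp [Cfg.map]
  exact (DFunLike.congr_fun h E).symm

/-- the resultant -/
noncomputable def Res {R : Type u} [CommRing R] [Algebra Ω R] {d1 d2 : ℕ} (c1 : Cfg d1 R)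
    (c2 : Cfg d2 R) : R :=
  ((1 : Matrix (Fin d1) (Fin d1) R) ⊗ₖ EE E c2 -
    EE E c1 ⊗ₖ (1 : Matrix (Fin d2) (Fin d2) R)).det

theorem Res_map {R R' : Type u} [CommRing R] [Algebra Ω R] [CommRing R'] [Algebra Ω R']
    {d1 d2 : ℕ} (φ : R →ₐ[Ω] R') (c1 : Cfg d1 R) (c2 : Cfg d2 R) :
    φ (Res E c1 c2) = Res E (c1.map φ) (c2.map φ) := by
  rw [Res, Res, AlgHom.map_det]
  congr 1
  rw [EE_map, EE_map]
  ext ⟨i, i'⟩ ⟨j, j'⟩
  simp only [AlgHom.mapMatrix_apply, Matrix.map_apply, Matrix.sub_apply,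
    Matrix.kroneckerMap_apply, Matrix.one_apply, map_sub, map_mul]
  split_ifs <;> simp

theorem EE_red {d : ℕ} (c : Cfg d Ω) (x : Fin d → Fin 3 → Ω) (U V : Matrix (Fin d) (Fin d) Ω)
    (hUV : U * V = 1) (hc : ∀ a, c.M a = U * Matrix.diagonal (fun i => x i a) * V) :
    EE E c = U * Matrix.diagonal (fun i => FreeAlgebra.lift Ω (x i) E) * V := by
  have hVU : V * U = 1 := _root_.mul_eq_one_comm.1 hUV
  rw [EE]
  induction E using FreeAlgebra.induction with
  | grade0 r =>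
    have h1 : (Matrix.diagonal fun i => FreeAlgebra.lift Ω (x i)
        (algebraMap Ω (FreeAlgebra Ω (Fin 3)) r)) = r • (1 : Matrix (Fin d) (Fin d) Ω) := by
      ext i j
      by_cases hij : i = j
      · subst hij; simp
      · simp [hij]
    rw [h1, AlgHom.commutes, Matrix.mul_smul, Matrix.smul_mul, Matrix.mul_one, hUV,
      Algebra.algebraMap_eq_smul_one]
  | grade1 a =>
    simp only [FreeAlgebra.lift_ι_apply]
    exact hc a
  | mul a b ha hb =>
    rw [map_mul, ha, hb]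
    have h1 : (Matrix.diagonal fun i => FreeAlgebra.lift Ω (x i) (a * b)) =
        (Matrix.diagonal fun i => FreeAlgebra.lift Ω (x i) a) *
          (Matrix.diagonal fun i => FreeAlgebra.lift Ω (x i) b) := by
      rw [Matrix.diagonal_mul_diagonal]
      simp
    rw [h1]
    calc _ = U * (Matrix.diagonal fun i => FreeAlgebra.lift Ω (x i) a) * (V * U) *
          (Matrix.diagonal fun i => FreeAlgebra.lift Ω (x i) b) * V := by
          simp only [Matrix.mul_assoc]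
      _ = _ := by rw [hVU, Matrix.mul_one]; simp only [Matrix.mul_assoc]
  | add a b ha hb =>
    rw [map_add, ha, hb]
    have h1 : (Matrix.diagonal fun i => FreeAlgebra.lift Ω (x i) (a + b)) =
        (Matrix.diagonal fun i => FreeAlgebra.lift Ω (x i) a) +
          (Matrix.diagonal fun i => FreeAlgebra.lift Ω (x i) b) := by
      rw [Matrix.diagonal_add]
      simp
    rw [h1, Matrix.mul_add, Matrix.add_mul]

theorem Res_eq_zero {d1 d2 : ℕ} (c1 : Cfg d1 Ω) (c2 : Cfg d2 Ω)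
    (x1 : Fin d1 → Fin 3 → Ω) (U1 V1 : Matrix (Fin d1) (Fin d1) Ω) (h1 : U1 * V1 = 1)
    (hc1 : ∀ a, c1.M a = U1 * Matrix.diagonal (fun i => x1 i a) * V1)
    (x2 : Fin d2 → Fin 3 → Ω) (U2 V2 : Matrix (Fin d2) (Fin d2) Ω) (h2 : U2 * V2 = 1)
    (hc2 : ∀ a, c2.M a = U2 * Matrix.diagonal (fun i => x2 i a) * V2)
    (i0 : Fin d1) (j0 : Fin d2) (h0 : x1 i0 = x2 j0) : Res E c1 c2 = 0 := by
  rw [Res, EE_red E c1 x1 U1 V1 h1 hc1, EE_red E c2 x2 U2 V2 h2 hc2]
  set D1 := Matrix.diagonal (fun i => FreeAlgebra.lift Ω (x1 i) E) with hD1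
  set D2 := Matrix.diagonal (fun i => FreeAlgebra.lift Ω (x2 i) E) with hD2
  have e1 : (1 : Matrix (Fin d1) (Fin d1) Ω) ⊗ₖ (U2 * D2 * V2) =
      (U1 ⊗ₖ U2) * ((1 : Matrix (Fin d1) (Fin d1) Ω) ⊗ₖ D2) * (V1 ⊗ₖ V2) := by
    rw [← Matrix.mul_kronecker_mul, ← Matrix.mul_kronecker_mul, Matrix.mul_one, h1]
  have e2 : (U1 * D1 * V1) ⊗ₖ (1 : Matrix (Fin d2) (Fin d2) Ω) =
      (U1 ⊗ₖ U2) * (D1 ⊗ₖ (1 : Matrix (Fin d2) (Fin d2) Ω)) * (V1 ⊗ₖ V2) := by
    rw [← Matrix.mul_kronecker_mul, ← Matrix.mul_kronecker_mul, Matrix.mul_one, h2]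
  rw [e1, e2, ← Matrix.sub_mul, ← Matrix.mul_sub, Matrix.det_mul, Matrix.det_mul]
  have e3 : (1 : Matrix (Fin d1) (Fin d1) Ω) ⊗ₖ D2 - D1 ⊗ₖ (1 : Matrix (Fin d2) (Fin d2) Ω) =
      Matrix.diagonal fun p : Fin d1 × Fin d2 =>
        FreeAlgebra.lift Ω (x2 p.2) E - FreeAlgebra.lift Ω (x1 p.1) E := by
    rw [← Matrix.diagonal_one, ← Matrix.diagonal_one, hD1, hD2,
      Matrix.diagonal_kronecker_diagonal, Matrix.diagonal_kronecker_diagonal,
      Matrix.diagonal_sub]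
    simp
  rw [e3, Matrix.det_diagonal, Finset.prod_eq_zero (Finset.mem_univ (i0, j0)), mul_zero,
    zero_mul]
  rw [h0, sub_self]

end Res

section Gen
variable {k Ω : Type u} [Field k] [Field Ω]

/-- the generic configuration -/
noncomputable def gen (Ω : Type u) [Field Ω] (d : ℕ) : Cfg d (MvPolynomial (Idx d) Ω) :=
  ⟨fun a => Matrix.of fun i j => MvPolynomial.X (Sum.inl (a, i, j)),
    fun i => MvPolynomial.X (Sum.inr i)⟩

/-- constant configuration -/
noncomputable def cn {σ : Type} {d : ℕ} (c : Cfg d Ω) : Cfg d (MvPolynomial σ Ω) :=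
  c.map MvPolynomial.C

theorem gen_map {d : ℕ} (c : Cfg d Ω) :
    (gen Ω d).map (MvPolynomial.aeval c.fn : MvPolynomial (Idx d) Ω →ₐ[Ω] Ω) = c := by
  apply Cfg.ext
  · funext a
    ext i j
    simp [gen, Cfg.map, Cfg.fn]
  · funext i
    simp [gen, Cfg.map, Cfg.fn]

theorem cn_map {σ : Type} {d : ℕ} (c : Cfg d Ω) (x : σ → Ω) :
    (cn c : Cfg d (MvPolynomial σ Ω)).map (MvPolynomial.aeval x : MvPolynomial σ Ω →ₐ[Ω] Ω)
      = c := by
  apply Cfg.ext
  · funext a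
    ext i j
    simp [cn, Cfg.map]
  · funext i
    simp [cn, Cfg.map]

/-- the product of the resultant and of the value of `F` -/
noncomputable def Psi (κ : k →+* Ω) (E : FreeAlgebra Ω (Fin 3)) {d1 d2 : ℕ}
    (F : MvPolynomial (Idx (d1 + d2)) k) {R : Type u} [CommRing R] [Algebra Ω R]
    (c1 : Cfg d1 R) (c2 : Cfg d2 R) : R :=
  Res E c1 c2 * MvPolynomial.eval₂ ((algebraMap Ω R).comp κ) (bs c1 c2).fn F

theorem Psi_map (κ : k →+* Ω) (E : FreeAlgebra Ω (Fin 3)) {d1 d2 : ℕ}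
    (F : MvPolynomial (Idx (d1 + d2)) k) {R R' : Type u} [CommRing R] [Algebra Ω R]
    [CommRing R'] [Algebra Ω R'] (φ : R →ₐ[Ω] R') (c1 : Cfg d1 R) (c2 : Cfg d2 R) :
    φ (Psi κ E F c1 c2) = Psi κ E F (c1.map φ) (c2.map φ) := by
  rw [Psi, Psi, map_mul, Res_map]
  congr 1
  have h1 : φ (MvPolynomial.eval₂ ((algebraMap Ω R).comp κ) (bs c1 c2).fn F) =
      (φ : R →+* R') (MvPolynomial.eval₂ ((algebraMap Ω R).comp κ) (bs c1 c2).fn F) := rfl
  rw [h1, MvPolynomial.hom_eval₂]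
  have h2 : (φ : R →+* R').comp ((algebraMap Ω R).comp κ) = (algebraMap Ω R').comp κ := by
    ext t
    simp
  have h3 : ((φ : R →+* R') ∘ (bs c1 c2).fn) = (bs (c1.map φ) (c2.map φ)).fn := by
    have := bs_map (φ : R →+* R') c1 c2
    rw [← Cfg.map_fn, this]
    rfl
  rw [h2, ← h3]
  rfl

theorem map_red {d : ℕ} (κ : k →+* Ω) {e : Cfg d k} (q : Fin d → Fin 3 → k)
    (U V : Matrix (Fin d) (Fin d) k) (hUV : U * V = 1)
    (hM : ∀ a, e.M a = U * Matrix.diagonal (fun i => q i a) * V) :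
    U.map κ * V.map κ = 1 ∧ ∀ a, (e.map κ).M a =
      U.map κ * Matrix.diagonal (fun i => κ (q i a)) * V.map κ := by
  constructor
  · rw [← Matrix.map_mul, hUV, Matrix.map_one _ (map_zero κ) (map_one κ)]
  · intro a
    change (e.M a).map κ = _
    rw [hM a, Matrix.map_mul, Matrix.map_mul, Matrix.diagonal_map (map_zero κ)]

theorem Psi_red (κ : k →+* Ω) (E : FreeAlgebra Ω (Fin 3)) {d1 d2 : ℕ}
    (F : MvPolynomial (Idx (d1 + d2)) k)
    (hF : ∀ c0 : Cfg (d1 + d2) k, IsRed c0 → MvPolynomial.eval c0.fn F = 0)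
    {e1 : Cfg d1 k} {e2 : Cfg d2 k} (h1 : IsRed e1) (h2 : IsRed e2) :
    Psi κ E F (e1.map κ) (e2.map κ) = 0 := by
  obtain ⟨q1, U1, V1, i1, s1, u1, m1, v1⟩ := h1
  obtain ⟨q2, U2, V2, i2, s2, u2, m2, v2⟩ := h2
  by_cases hdis : ∀ i j, q1 i ≠ q2 j
  · have h3 := hF _ (bs_isRed q1 U1 V1 q2 U2 V2 i1 i2 s1 s2 u1 u2 m1 m2 v1 v2 hdis)
    rw [Psi, ← bs_map, Cfg.map_fn]
    have h4 : MvPolynomial.eval₂ ((algebraMap Ω Ω).comp κ) (κ ∘ (bs e1 e2).fn) F =
        κ (MvPolynomial.eval (bs e1 e2).fn F) := by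
      rw [MvPolynomial.eval, MvPolynomial.coe_eval₂Hom, MvPolynomial.hom_eval₂,
        RingHom.comp_id]
      rfl
    rw [h4, h3, map_zero, mul_zero]
  · push Not at hdis
    obtain ⟨i0, j0, h0⟩ := hdis
    obtain ⟨a1, b1⟩ := map_red κ q1 U1 V1 u1 m1
    obtain ⟨a2, b2⟩ := map_red κ q2 U2 V2 u2 m2
    rw [Psi, Res_eq_zero E (e1.map κ) (e2.map κ) (fun i a => κ (q1 i a)) (U1.map κ) (V1.map κ)
      a1 b1 (fun i a => κ (q2 i a)) (U2.map κ) (V2.map κ) a2 b2 i0 j0 (by rw [h0]), zero_mul]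

end Gen

/-- SUM -/
theorem sum (hEXT : T_EXT.{u}) (hCONJ : T_CONJ.{u}) : T_SUM.{u} := by
  intro k Ω _ _ _ _ κ W1 W2 _ _ _ _ _ _ p1 p2 hs1 hs2 hgen d b
  -- bases
  set d1 := Module.finrank Ω W1
  set d2 := Module.finrank Ω W2
  let b1 : Module.Basis (Fin d1) Ω W1 := Module.finBasis Ω W1
  let b2 : Module.Basis (Fin d2) Ω W2 := Module.finBasis Ω W2
  let B : Module.Basis (Fin (d1 + d2)) Ω (W1 × W2) := (b1.prod b2).reindex finSumFinEquiv
  obtain rfl : d = d1 + d2 := by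
    have h1 := Module.finrank_eq_card_basis b
    have h2 := Module.finrank_eq_card_basis B
    simp only [Fintype.card_fin] at h1 h2
    omega
  set p : Fin 3 → W1 × W2 := fun i => (p1 i, p2 i) with hp
  -- block form
  have hB : cfgOf B p = bs (cfgOf b1 p1) (cfgOf b2 p2) := by
    have hBr : ∀ (w : W1 × W2) i, B.repr w i =
        Sum.elim (fun i => b1.repr w.1 i) (fun i => b2.repr w.2 i) (finSumFinEquiv.symm i) := by
      intro w i
      simp only [B, Module.Basis.repr_reindex_apply]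
      rcases finSumFinEquiv.symm i with i | i
      · simp
      · simp
    have hBv : ∀ i, B i = Sum.elim (fun i => ((b1 i, 0) : W1 × W2)) (fun i => (0, b2 i))
        (finSumFinEquiv.symm i) := by
      intro i
      simp only [B, Module.Basis.reindex_apply]
      rcases finSumFinEquiv.symm i with i | i
      · ext <;> simp
      · ext <;> simp
    apply Cfg.ext
    · funext a
      ext i j
      change Algebra.leftMulMatrix B (p a) i j = _
      rw [Algebra.leftMulMatrix_eq_repr_mul, hBr, hBv]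
      simp only [bs, cfgOf, Matrix.submatrix_apply]
      rcases finSumFinEquiv.symm i with i | i <;> rcases finSumFinEquiv.symm j with j | j
      · simp [hp, Algebra.leftMulMatrix_eq_repr_mul]
      · simp [hp]
      · simp [hp]
      · simp [hp, Algebra.leftMulMatrix_eq_repr_mul]
    · funext i
      change B.repr 1 i = _
      rw [hBr]
      simp only [bs, cfgOf, Function.comp_apply]
      rcases finSumFinEquiv.symm i with i | i <;> simp
  have hchange : cfgOf b p = ⟨fun a => b.toMatrix B * (cfgOf B p).M a * B.toMatrix b,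
      b.toMatrix B *ᵥ (cfgOf B p).v⟩ := by
    apply Cfg.ext
    · funext a
      change Algebra.leftMulMatrix b (p a) = b.toMatrix B * Algebra.leftMulMatrix B (p a) *
        B.toMatrix b
      rw [Algebra.leftMulMatrix_apply, Algebra.leftMulMatrix_apply,
        basis_toMatrix_mul_linearMap_toMatrix_mul_basis_toMatrix]
    · change ⇑(b.repr 1) = b.toMatrix B *ᵥ ⇑(B.repr 1)
      rw [Module.Basis.toMatrix_mulVec_repr]
  rw [hchange]
  apply hCONJ k Ω κ _ _ _ _ (Module.Basis.toMatrix_mul_toMatrix_flip _ _)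
  rw [hB]
  -- the separating element
  obtain ⟨E, hE⟩ : ∃ E : FreeAlgebra Ω (Fin 3), FreeAlgebra.lift Ω p E = (0, 1) := by
    have h1 : (FreeAlgebra.lift Ω p).range = ⊤ := by
      rw [← hgen, ← Algebra.map_top, ← FreeAlgebra.adjoin_range_ι, AlgHom.map_adjoin,
        ← Set.range_comp]
      congr 1
      congr 1
      funext i
      simp [hp]
    have h2 : ((0, 1) : W1 × W2) ∈ (FreeAlgebra.lift Ω p).range := by
      rw [h1]; trivial
    exact h2
  have hE1 : FreeAlgebra.lift Ω p1 E = 0 := by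
    have h1 : (AlgHom.fst Ω W1 W2).comp (FreeAlgebra.lift Ω p) = FreeAlgebra.lift Ω p1 := by
      apply FreeAlgebra.hom_ext
      funext a
      simp [hp]
    rw [← h1, AlgHom.comp_apply, hE]
    rfl
  have hE2 : FreeAlgebra.lift Ω p2 E = 1 := by
    have h1 : (AlgHom.snd Ω W1 W2).comp (FreeAlgebra.lift Ω p) = FreeAlgebra.lift Ω p2 := by
      apply FreeAlgebra.hom_ext
      funext a
      simp [hp]
    rw [← h1, AlgHom.comp_apply, hE]
    rfl
  have hEE1 : EE E (cfgOf b1 p1) = 0 := by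
    have h1 : (Algebra.leftMulMatrix b1).comp (FreeAlgebra.lift Ω p1) =
        FreeAlgebra.lift Ω (cfgOf b1 p1).M := by
      apply FreeAlgebra.hom_ext
      funext a
      simp [cfgOf]
    rw [EE, ← h1, AlgHom.comp_apply, hE1, map_zero]
  have hEE2 : EE E (cfgOf b2 p2) = 1 := by
    have h1 : (Algebra.leftMulMatrix b2).comp (FreeAlgebra.lift Ω p2) =
        FreeAlgebra.lift Ω (cfgOf b2 p2).M := by
      apply FreeAlgebra.hom_ext
      funext a
      simp [cfgOf]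
    rw [EE, ← h1, AlgHom.comp_apply, hE2, map_one]
  have hRes : Res E (cfgOf b1 p1) (cfgOf b2 p2) = 1 := by
    rw [Res, hEE1, hEE2, Matrix.zero_kronecker, sub_zero, Matrix.one_kronecker_one,
      Matrix.det_one]
  -- vanishing
  intro F hF
  have hA : ∀ e1 : Cfg d1 k, IsRed e1 → Psi κ E F (e1.map κ) (cfgOf b2 p2) = 0 := by
    intro e1 he1
    have h1 := hEXT k Ω κ (Idx d2) {x | ∃ e2 : Cfg d2 k, IsRed e2 ∧ e2.fn = x}
      (cfgOf b2 p2).fn (fun F' hF' => hs2 d2 b2 F' fun c0 hc0 => hF' _ ⟨c0, hc0, rfl⟩)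
      (Psi κ E F (cn (e1.map κ)) (gen Ω d2)) (by
        rintro _ ⟨e2, he2, rfl⟩
        rw [← Cfg.map_fn, ← MvPolynomial.coe_aeval_eq_eval]
        change (MvPolynomial.aeval (e2.map κ).fn : MvPolynomial (Idx d2) Ω →ₐ[Ω] Ω) _ = 0
        rw [Psi_map, cn_map, gen_map]
        exact Psi_red κ E F hF he1 he2)
    rw [← MvPolynomial.coe_aeval_eq_eval] at h1
    change (MvPolynomial.aeval (cfgOf b2 p2).fn : MvPolynomial (Idx d2) Ω →ₐ[Ω] Ω) _ = 0 at h1
    rw [Psi_map, cn_map, gen_map] at h1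
    exact h1
  have hBB := hEXT k Ω κ (Idx d1) {x | ∃ e1 : Cfg d1 k, IsRed e1 ∧ e1.fn = x}
      (cfgOf b1 p1).fn (fun F' hF' => hs1 d1 b1 F' fun c0 hc0 => hF' _ ⟨c0, hc0, rfl⟩)
      (Psi κ E F (gen Ω d1) (cn (cfgOf b2 p2))) (by
        rintro _ ⟨e1, he1, rfl⟩
        rw [← Cfg.map_fn, ← MvPolynomial.coe_aeval_eq_eval]
        change (MvPolynomial.aeval (e1.map κ).fn : MvPolynomial (Idx d1) Ω →ₐ[Ω] Ω) _ = 0
        rw [Psi_map, cn_map, gen_map]
        exact hA e1 he1)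
  rw [← MvPolynomial.coe_aeval_eq_eval] at hBB
  change (MvPolynomial.aeval (cfgOf b1 p1).fn : MvPolynomial (Idx d1) Ω →ₐ[Ω] Ω) _ = 0 at hBB
  rw [Psi_map, cn_map, gen_map, Psi, hRes, one_mul] at hBB
  exact hBB

end Pool.Agent.H29.HZ.SUM
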