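import Pool.Agent.H12.HS.Targets
import Pool.Agent.H12.HS.Basic

/-!
# XX: if `T(0) = 0` and the linear part of `T` is not zero, there is a good Hecke datum
-/

namespace Pool.Agent.H29.HZ.XX

open Pool.Agent.H12.HS Matrix

universe u

section Transport
variable {P P' : Type u} [CommRing P] [CommRing P'] {n : Type} [Fintype n]

/-- transport of a Hecke datum along a ring isomorphism -/
def mapHD (σ : P ≃+* P') {g : P} {T : Matrix n n P} (D : HD g T) : HD (σ g) (T.map σ) where
  l := σ D.l
  s := σ D.s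
  a := σ D.a
  h := σ D.h
  ψ := σ D.ψ
  u := σ ∘ D.u
  u' := σ ∘ D.u'
  φ := σ ∘ D.φ
  φ' := σ ∘ D.φ'
  hg := by rw [← map_pow, ← map_mul, ← map_add, ← D.hg]
  hφu := by
    have := congrArg σ D.hφu
    simpa [dotProduct] using this
  hu := by
    funext i
    have := congrArg σ (congrFun D.hu i)
    simpa [mulVec, dotProduct] using this
  hφ := by
    funext i
    have := congrArg σ (congrFun D.hφ i)
    simpa [vecMul, dotProduct] using this
  hψ := by
    have := congrArg σ D.hψ
    simpa [dotProduct] using this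
  hl := by
    intro h
    exact D.hl (by simpa using h)
  hs := by
    intro p hp
    have h1 : D.l ∣ D.s * σ.symm p := by
      have := map_dvd σ.symm hp
      simpa using this
    have := map_dvd σ (D.hs _ h1)
    simpa using this
  ha := by
    rcases D.ha with h | ⟨h1, h2⟩
    · left
      intro p hp
      have h1 : D.l ∣ D.a * σ.symm p := by
        have := map_dvd σ.symm hp
        simpa using this
      have := map_dvd σ (h _ h1)
      simpa using this
    · right
      refine ⟨by simp [h1], ?_⟩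
      intro p hp
      have h3 : D.l ∣ D.h * σ.symm p := by
        have := map_dvd σ.symm hp
        simpa using this
      have := map_dvd σ (h2 _ h3)
      simpa using this

theorem exists_map (σ : P ≃+* P') {g : P} {T : Matrix n n P} (D : HD g T) {g' : P'}
    {T' : Matrix n n P'} (hg : σ g = g') (hT : T.map σ = T') :
    ∃ D' : HD g' T', D'.s = σ D.s ∧ D'.D1 = D.D1.map σ := by
  subst hg
  subst hT
  refine ⟨mapHD σ D, rfl, ?_⟩
  ext i j
  simp [HD.D1, mapHD, vecMulVec_apply]

end Transport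

section Quart
variable {Ω : Type u} [Field Ω]

/-- the constants as a ring homomorphism -/
noncomputable def cstHom (Ω : Type u) [Field Ω] : Ω →+* P2 Ω :=
  (PowerSeries.C (R := PowerSeries Ω)).comp (PowerSeries.C (R := Ω))

theorem cst_eq (c : Ω) : cst c = cstHom Ω c := rfl

theorem quart_shear (c : Ω) : px Ω ^ 4 + (py Ω + cst c * px Ω) ^ 4 =
    quart ![1 + c ^ 4, 4 * c ^ 3, 6 * c ^ 2, 4 * c, 1] := by
  simp only [quart, Fin.sum_univ_five, cst_eq]
  have h4 : cstHom Ω 4 = 4 := map_ofNat _ 4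
  have h6 : cstHom Ω 6 = 6 := map_ofNat _ 6
  simp [h4, h6]
  ring

theorem quart_swap : g4 Ω = quart ![1, 0, 0, 0, 1] := by
  simp only [quart, Fin.sum_univ_five, cst_eq, g4]
  simp

end Quart

/-- XX -/
theorem xx (hNB : T_NB.{u}) (hBR : T_BR.{u}) (hLA : T_LA.{u}) (hAUT : T_AUT.{u})
    (hDOM : T_DOM.{u}) : T_XX.{u} := by
  classical
  intro Ω _ _ _ n _ _ T hT h0 hcard hlin
  by_contra hno
  push Not at hno
  have hns := (hDOM Ω).1
  -- transport
  have key : ∀ (σ : P2 Ω ≃+* P2 Ω), (∀ p, ev0 (σ p) = ev0 p) → ∀ (g' : P2 Ω), σ (g4 Ω) = g' →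
      ¬ ∃ D : HD g' (T.map σ), ev0 D.s = 0 ∧ D.D1.map ev0 ≠ 0 := by
    rintro σ hσ g' hg' ⟨D, hDs, hD1⟩
    have hσ' : ∀ p, ev0 (σ.symm p) = ev0 p := by
      intro p
      rw [← hσ (σ.symm p), RingEquiv.apply_symm_apply]
    obtain ⟨D', h1, h2⟩ := exists_map σ.symm D (g' := g4 Ω) (T' := T)
      (by rw [← hg', RingEquiv.symm_apply_apply]) (by ext i j : 2; simp)
    refine hD1 ?_
    have h3 := hno D' (by rw [h1, hσ', hDs])
    rw [h2] at h3
    ext i j
    have := congrFun (congrFun h3 i) j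
    simpa [hσ'] using this
  have hsq : ∀ (σ : P2 Ω ≃+* P2 Ω) (g' : P2 Ω), σ (g4 Ω) = g' →
      (∀ p q : P2 Ω, p ^ 2 = g' * q ^ 2 → q = 0) ∧
      (T.map σ) * (T.map σ) = g' • (1 : Matrix n n (P2 Ω)) := by
    intro σ g' hg'
    constructor
    · intro p q hpq
      have h1 : (σ.symm p) ^ 2 = g4 Ω * (σ.symm q) ^ 2 := by
        have := congrArg σ.symm hpq
        rw [← hg'] at this
        simpa using this
      have h2 := hns _ _ h1
      simpa using h2
    · have h1 : (T.map σ) * (T.map σ) = (T * T).map σ := by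
        rw [Matrix.map_mul]
      rw [h1, hT, ← hg']
      ext i j : 2
      by_cases hij : i = j
      · subst hij; simp
      · simp [hij]
  have hev : ∀ (σ : P2 Ω ≃+* P2 Ω), (∀ p, ev0 (σ p) = ev0 p) → (T.map σ).map ev0 = 0 := by
    intro σ hσ
    ext i j
    have := congrFun (congrFun h0 i) j
    simpa [hσ] using this
  obtain ⟨hshear, hswap⟩ := hAUT Ω
  set S : Finset Ω := (Polynomial.X ^ 4 + 1 : Polynomial Ω).roots.toFinset with hS
  have hmemS : ∀ c, c ∈ S ↔ c ^ 4 + 1 = 0 := by
    intro c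
    have hne : (Polynomial.X ^ 4 + 1 : Polynomial Ω) ≠ 0 := by
      have : (Polynomial.X ^ 4 + Polynomial.C 1 : Polynomial Ω).Monic :=
        Polynomial.monic_X_pow_add_C 1 (by norm_num)
      rw [Polynomial.C_1] at this
      exact this.ne_zero
    rw [hS, Multiset.mem_toFinset, Polynomial.mem_roots hne]
    simp
  have hshear' : ∀ c : Ω, ∃ σ : P2 Ω ≃+* P2 Ω, (∀ p, ev0 (σ p) = ev0 p) ∧
      σ (g4 Ω) = quart ![1 + c ^ 4, 4 * c ^ 3, 6 * c ^ 2, 4 * c, 1] ∧
      (T.map σ).map lx = T.map lx + c • T.map ly ∧ (T.map σ).map ly = T.map ly := by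
    intro c
    obtain ⟨σ, hc, hx, hy, he, hlx, hly⟩ := hshear c
    refine ⟨σ, he, ?_, ?_, ?_⟩
    · rw [← quart_shear, g4, map_add, map_pow, map_pow, hx, hy]
    · ext i j
      simp [hlx]
    · ext i j
      simp [hly]
  have hX : T.map lx = 0 ∧ T.map ly = 0 := by
    refine hLA Ω n (T.map lx) (T.map ly) S ?_ ?_ ?_ ?_
    · intro c hc
      obtain ⟨σ, he, hg, h1, h2⟩ := hshear' c
      have ha0 : (![1 + c ^ 4, 4 * c ^ 3, 6 * c ^ 2, 4 * c, 1] : Fin 5 → Ω) 0 ≠ 0 := by
        intro h
        apply hc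
        rw [hmemS]
        simp only [Matrix.cons_val_zero] at h
        rw [← h]
        ring
      rcases hNB Ω n _ (T.map σ) ha0 (hsq σ _ hg).1 (hsq σ _ hg).2 (hev σ he) hcard with h | h
      · exact absurd h (key σ he _ hg)
      · rw [h1, h2] at h
        exact h
    · obtain ⟨σ, hc, hx, hy, he, hlx, hly⟩ := hswap
      have hg : σ (g4 Ω) = quart ![1, 0, 0, 0, 1] := by
        rw [← quart_swap, g4, map_add, map_pow, map_pow, hx, hy, add_comm]
      rcases hNB Ω n _ (T.map σ) (by simp) (hsq σ _ hg).1 (hsq σ _ hg).2 (hev σ he) hcard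
        with h | h
      · exact absurd h (key σ he _ hg)
      · intro v hv
        have h1 : (T.map σ).map lx = T.map ly := by
          ext i j; simp [hlx]
        have h2 : (T.map σ).map ly = T.map lx := by
          ext i j; simp [hly]
        rw [h1, h2] at h
        exact h.1 v hv
    · obtain ⟨σ, hc, hx, hy, he, hlx, hly⟩ := hswap
      have hg : σ (g4 Ω) = quart ![1, 0, 0, 0, 1] := by
        rw [← quart_swap, g4, map_add, map_pow, map_pow, hx, hy, add_comm]
      rcases hNB Ω n _ (T.map σ) (by simp) (hsq σ _ hg).1 (hsq σ _ hg).2 (hev σ he) hcard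
        with h | h
      · exact absurd h (key σ he _ hg)
      · intro v hv
        have h1 : (T.map σ).map lx = T.map ly := by
          ext i j; simp [hlx]
        have h2 : (T.map σ).map ly = T.map lx := by
          ext i j; simp [hly]
        rw [h1, h2] at h
        exact h.2 v hv
    · intro c hc v w hvw
      obtain ⟨σ, he, hg, h1, h2⟩ := hshear' c
      rw [hmemS] at hc
      have hc0 : c ≠ 0 := by
        rintro rfl
        simp at hc
      have ha0 : (![1 + c ^ 4, 4 * c ^ 3, 6 * c ^ 2, 4 * c, 1] : Fin 5 → Ω) 0 = 0 := by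
        simp only [Matrix.cons_val_zero]
        rw [← hc]
        ring
      have ha1 : (![1 + c ^ 4, 4 * c ^ 3, 6 * c ^ 2, 4 * c, 1] : Fin 5 → Ω) 1 ≠ 0 := by
        simp only [Matrix.cons_val_one, Matrix.cons_val_zero]
        exact mul_ne_zero (by norm_num) (pow_ne_zero _ hc0)
      rcases hBR Ω n _ (T.map σ) ha0 ha1 (hsq σ _ hg).2 (hev σ he) hcard with h | h
      · exact absurd h (key σ he _ hg)
      · rw [h1, h2] at h
        exact h v w hvw
  rcases hlin with h | h
  · exact h hX.1
  · exact h hX.2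

end Pool.Agent.H29.HZ.XX
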